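import Mathlib

/-!
# A tree of names and filters that decide finitely supported events

`Nm M ι` is the type of names: a name `t n` for each natural number, and a name `new s e k x g` for
each family of patterns over terms in earlier names. An interpretation of the names in `M` is a
function `ω : Nm M ι → M`. A `Stage` is a set `D` of names together with a filter of events about
interpretations that is generated by finitely supported events with support in `D`, and decides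
all of them.
-/

set_option autoImplicit false

namespace Pool.Agent.Helper69.Io

open Filter

/-- The names. -/
inductive Nm (M ι : Type) : Type
  | t : ℕ → Nm M ι
  | new (s : Set ι) (e : ι → Prop) (k : ι → ℕ) (x : ∀ i, Fin (k i) → Nm M ι)
      (g : ∀ i, (Fin (k i) → M) → M) : Nm M ι

/-- The level of a name. -/
def lev {M ι : Type} : Nm M ι → ℕ
  | .t n => n
  | .new _ _ _ _ _ => 0

/-- The value of a term. -/
def val {M ι : Type} {k : ι → ℕ} (x : ∀ i, Fin (k i) → Nm M ι)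
    (g : ∀ i, (Fin (k i) → M) → M) (i : ι) (ω : Nm M ι → M) : M :=
  g i fun j => ω (x i j)

/-- The function depends on finitely many coordinates, all in the set `S`. -/
def FS {N M α : Type} (S : Set N) (f : (N → M) → α) : Prop :=
  ∃ F : Set N, F.Finite ∧ F ⊆ S ∧ ∀ ω ω' : N → M, (∀ x ∈ F, ω x = ω' x) → f ω = f ω'

namespace FS

variable {N M α β γ : Type} {S T : Set N}

theorem mono {f : (N → M) → α} (h : FS S f) (hST : S ⊆ T) : FS T f := by
  obtain ⟨F, h1, h2, h3⟩ := h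
  exact ⟨F, h1, h2.trans hST, h3⟩

theorem const (a : α) : FS S fun _ : N → M => a :=
  ⟨∅, Set.finite_empty, Set.empty_subset _, fun _ _ _ => rfl⟩

theorem coord {x : N} (hx : x ∈ S) : FS S fun ω : N → M => ω x :=
  ⟨{x}, Set.finite_singleton x, by simpa using hx, fun ω ω' h => h x rfl⟩

theorem comp {f : (N → M) → α} (h : FS S f) (g : α → β) : FS S fun ω => g (f ω) := by
  obtain ⟨F, h1, h2, h3⟩ := h
  exact ⟨F, h1, h2, fun ω ω' h => congrArg g (h3 ω ω' h)⟩

theorem pair {f : (N → M) → α} {g : (N → M) → β} (hf : FS S f) (hg : FS S g) :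
    FS S fun ω => (f ω, g ω) := by
  obtain ⟨F, h1, h2, h3⟩ := hf
  obtain ⟨G, h4, h5, h6⟩ := hg
  refine ⟨F ∪ G, h1.union h4, Set.union_subset h2 h5, fun ω ω' h => ?_⟩
  change (f ω, g ω) = (f ω', g ω')
  rw [h3 ω ω' fun x hx => h x (Or.inl hx), h6 ω ω' fun x hx => h x (Or.inr hx)]

theorem comp₂ {f : (N → M) → α} {g : (N → M) → β} (hf : FS S f) (hg : FS S g)
    (h : α → β → γ) : FS S fun ω => h (f ω) (g ω) :=
  (hf.pair hg).comp fun p => h p.1 p.2

theorem pi {I : Type} [Finite I] {α : I → Type} {f : ∀ i, (N → M) → α i}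
    (hf : ∀ i, FS S (f i)) : FS S fun ω i => f i ω := by
  choose F h1 h2 h3 using hf
  refine ⟨⋃ i, F i, Set.finite_iUnion h1, Set.iUnion_subset h2, fun ω ω' h => ?_⟩
  funext i
  exact h3 i ω ω' fun x hx => h x (Set.mem_iUnion.2 ⟨i, hx⟩)

/-- A choice of witnesses. -/
theorem skolem {W : Type} [Nonempty W] {P : (N → M) → W → Prop} (hP : FS S P) :
    ∃ w : (N → M) → W, FS S w ∧ ∀ ω, (∃ y, P ω y) → P ω (w ω) :=
  ⟨fun ω => Classical.epsilon (P ω), hP.comp Classical.epsilon,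
    fun _ h => Classical.epsilon_spec h⟩

end FS

/-- A structure with a sequence of finer and finer partial equivalence relations and a random
graph on a subset. -/
structure Base (M : Type) where
  /-- The equivalence relations. -/
  E : ℕ → M → M → Prop
  /-- The set of vertices. -/
  P : M → Prop
  /-- The graph. -/
  R : M → M → Prop
  symm : ∀ n x y, E n x y → E n y x
  trans : ∀ n x y z, E n x y → E n y z → E n x z
  root : ∃ x, E 0 x x
  split : ∀ n x, E n x x → ∀ C : Set M, C.Finite → ∃ y, E n x y ∧ E (n + 1) y y ∧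
    ∀ c ∈ C, ¬ E (n + 1) c y
  ext : ∀ (I : Type) [Finite I] (a : I → M) (e : I → Prop), (∀ i, P (a i)) →
    Function.Injective a → ∃ v, P v ∧ ∀ i, v ≠ a i ∧ (R v (a i) ↔ e i)

variable {M ι : Type}

/-- The set of names is closed, and the filter is generated by finitely supported events, decides
them, and has the required properties. -/
structure Stage (B : Base M) (D : Set (Nm M ι)) (F : Filter (Nm M ι → M)) : Prop where
  tmem : ∀ n, Nm.t n ∈ D
  closed : ∀ s e k x g, Nm.new s e k x g ∈ D → ∀ i j, x i j ∈ D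
  nebot : F.NeBot
  gen : ∀ S ∈ F, ∃ S' ∈ F, S' ⊆ S ∧ FS D (· ∈ S')
  dec : ∀ p : (Nm M ι → M) → Prop, FS D p → (∀ᶠ ω in F, p ω) ∨ ∀ᶠ ω in F, ¬ p ω
  chain : ∀ n, ∀ᶠ ω in F, B.E n (ω (.t n)) (ω (.t (n + 1)))
  good : ∀ n (X : (Nm M ι → M) → M), FS (D ∩ {x | lev x ≤ n}) X →
    ∀ᶠ ω in F, ¬ B.E (n + 1) (X ω) (ω (.t (n + 1)))
  real : ∀ s e k x g, Nm.new s e k x g ∈ D →
    (∀ i ∈ s, ∀ j ∈ s, i ≠ j → ∀ᶠ ω in F, val x g i ω ≠ val x g j ω) →
    (∀ i ∈ s, ∀ᶠ ω in F, B.P (val x g i ω)) →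
    ∀ i ∈ s, ∀ᶠ ω in F, B.P (ω (.new s e k x g)) ∧ ω (.new s e k x g) ≠ val x g i ω ∧
      (B.R (ω (.new s e k x g)) (val x g i ω) ↔ e i)

theorem Stage.not_iff {B : Base M} {D : Set (Nm M ι)} {F : Filter (Nm M ι → M)}
    (h : Stage B D F) {p : (Nm M ι → M) → Prop} (hp : FS D p) :
    (¬ ∀ᶠ ω in F, p ω) ↔ ∀ᶠ ω in F, ¬ p ω := by
  have := h.nebot
  constructor
  · intro h1
    exact (h.dec p hp).resolve_left h1
  · intro h1 h2
    obtain ⟨ω, h3, h4⟩ := (h1.and h2).exists
    exact h3 h4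

section onestep

variable {B : Base M} {D : Set (Nm M ι)} {F : Filter (Nm M ι → M)}

/-- Copies of the parameters. -/
theorem copies (h : Stage B D F) (n : ℕ) {I : Type} [Finite I] (a : I → (Nm M ι → M) → M)
    (hP : ∀ i, ∀ᶠ ω in F, B.P (a i ω))
    (hinj : ∀ i j, i ≠ j → ∀ᶠ ω in F, a i ω ≠ a j ω)
    (hout : ∀ i (X : (Nm M ι → M) → M), FS (D ∩ {x | lev x ≤ n}) X → ∀ᶠ ω in F, a i ω ≠ X ω)
    (Ψ : (Nm M ι → M) → ((I → M) × M) → Prop) (hΨ : FS (D ∩ {x | lev x ≤ n}) Ψ)
    (hΨt : ∀ᶠ ω in F, Ψ ω (fun i => a i ω, ω (.t (n + 1)))) {I₀ : Type} [Finite I₀]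
    (b : I₀ → (Nm M ι → M) → M) (hb : ∀ i, FS (D ∩ {x | lev x ≤ n}) (b i)) (m : ℕ) :
    ∃ w : Fin m → (Nm M ι → M) → ((I → M) × M), (∀ z, FS (D ∩ {x | lev x ≤ n}) (w z)) ∧
      (∀ z, ∀ᶠ ω in F, Ψ ω (w z ω)) ∧
      (∀ z i, ∀ᶠ ω in F, B.P ((w z ω).1 i)) ∧
      (∀ z i j, i ≠ j → ∀ᶠ ω in F, (w z ω).1 i ≠ (w z ω).1 j) ∧
      (∀ z i j, ∀ᶠ ω in F, (w z ω).1 i ≠ b j ω) ∧
      (∀ z z', z ≠ z' → ∀ i j, ∀ᶠ ω in F, (w z ω).1 i ≠ (w z' ω).1 j) ∧
      (∀ z z', z ≠ z' → ∀ᶠ ω in F, ¬ B.E (n + 1) (w z ω).2 (w z' ω).2) := by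
  classical
  have hne : Nonempty M := by
    obtain ⟨x, -⟩ := B.root
    exact ⟨x⟩
  induction m with
  | zero =>
    exact ⟨fun z => z.elim0, fun z => z.elim0, fun z => z.elim0, fun z => z.elim0,
      fun z => z.elim0, fun z => z.elim0, fun z => z.elim0, fun z => z.elim0⟩
  | succ m ih =>
    obtain ⟨w, h1, h2, h3, h4, h5, h6, h7⟩ := ih
    let Q : (Nm M ι → M) → ((I → M) × M) → Prop := fun ω y =>
      Ψ ω y ∧ (∀ i, B.P (y.1 i)) ∧ (∀ i j, i ≠ j → y.1 i ≠ y.1 j) ∧ (∀ i j, y.1 i ≠ b j ω) ∧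
        (∀ z i j, y.1 i ≠ (w z ω).1 j) ∧ ∀ z, ¬ B.E (n + 1) (w z ω).2 y.2
    have hQ : FS (D ∩ {x | lev x ≤ n}) Q := by
      have hb' := FS.pi hb
      have hw' := FS.pi h1
      have h8 := hΨ.pair (hb'.pair hw')
      exact h8.comp fun (q : (((I → M) × M) → Prop) × ((I₀ → M) × (Fin m → (I → M) × M))) y =>
        q.1 y ∧ (∀ i, B.P (y.1 i)) ∧ (∀ i j, i ≠ j → y.1 i ≠ y.1 j) ∧ (∀ i j, y.1 i ≠ q.2.1 j) ∧
        (∀ z i j, y.1 i ≠ (q.2.2 z).1 j) ∧ ∀ z, ¬ B.E (n + 1) (q.2.2 z).2 y.2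
    obtain ⟨w', hw', hw''⟩ := hQ.skolem
    have hQt : ∀ᶠ ω in F, Q ω (w' ω) := by
      have h8 : ∀ᶠ ω in F, ∀ i, B.P (a i ω) := eventually_all.2 hP
      have h9 : ∀ᶠ ω in F, ∀ i j, i ≠ j → a i ω ≠ a j ω := by
        refine eventually_all.2 fun i => eventually_all.2 fun j => ?_
        by_cases hij : i = j
        · exact Eventually.of_forall fun ω h => absurd hij h
        · exact (hinj i j hij).mono fun ω h _ => h
      have h10 : ∀ᶠ ω in F, ∀ i j, a i ω ≠ b j ω :=
        eventually_all.2 fun i => eventually_all.2 fun j => hout i _ (hb j)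
      have h11 : ∀ᶠ ω in F, ∀ z i j, a i ω ≠ (w z ω).1 j := by
        refine eventually_all.2 fun z => eventually_all.2 fun i => eventually_all.2 fun j => ?_
        exact hout i _ ((h1 z).comp fun q => q.1 j)
      have h12 : ∀ᶠ ω in F, ∀ z, ¬ B.E (n + 1) (w z ω).2 (ω (.t (n + 1))) :=
        eventually_all.2 fun z => h.good n _ ((h1 z).comp fun q => q.2)
      filter_upwards [hΨt, h8, h9, h10, h11, h12] with ω a1 a2 a3 a4 a5 a6
      exact hw'' ω ⟨_, a1, a2, a3, a4, a5, a6⟩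
    refine ⟨Fin.snoc w w', ?_, ?_, ?_, ?_, ?_, ?_, ?_⟩
    · intro z
      refine Fin.lastCases ?_ (fun z => ?_) z
      · rw [Fin.snoc_last]
        exact hw'
      · rw [Fin.snoc_castSucc]
        exact h1 z
    · intro z
      refine Fin.lastCases ?_ (fun z => ?_) z
      · rw [Fin.snoc_last]
        exact hQt.mono fun ω h => h.1
      · rw [Fin.snoc_castSucc]
        exact h2 z
    · intro z i
      revert i
      refine Fin.lastCases ?_ (fun z => ?_) z
      · rw [Fin.snoc_last]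
        exact fun i => hQt.mono fun ω h => h.2.1 i
      · rw [Fin.snoc_castSucc]
        exact h3 z
    · intro z
      refine Fin.lastCases ?_ (fun z => ?_) z
      · rw [Fin.snoc_last]
        exact fun i j hij => hQt.mono fun ω h => h.2.2.1 i j hij
      · rw [Fin.snoc_castSucc]
        exact h4 z
    · intro z
      refine Fin.lastCases ?_ (fun z => ?_) z
      · rw [Fin.snoc_last]
        exact fun i j => hQt.mono fun ω h => h.2.2.2.1 i j
      · rw [Fin.snoc_castSucc]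
        exact h5 z
    · intro z z'
      refine Fin.lastCases ?_ (fun z => ?_) z
      · refine Fin.lastCases ?_ (fun z' => ?_) z'
        · intro h
          exact absurd rfl h
        · rw [Fin.snoc_last, Fin.snoc_castSucc]
          exact fun _ i j => hQt.mono fun ω h => h.2.2.2.2.1 z' i j
      · refine Fin.lastCases ?_ (fun z' => ?_) z'
        · rw [Fin.snoc_last, Fin.snoc_castSucc]
          exact fun _ i j => hQt.mono fun ω h => (h.2.2.2.2.1 z j i).symm
        · rw [Fin.snoc_castSucc, Fin.snoc_castSucc]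
          exact fun hz => h6 z z' fun hzz => hz (by rw [hzz])
    · intro z z'
      refine Fin.lastCases ?_ (fun z => ?_) z
      · refine Fin.lastCases ?_ (fun z' => ?_) z'
        · intro h
          exact absurd rfl h
        · rw [Fin.snoc_last, Fin.snoc_castSucc]
          exact fun _ => hQt.mono fun ω h h' => h.2.2.2.2.2 z' (B.symm _ _ _ h')
      · refine Fin.lastCases ?_ (fun z' => ?_) z'
        · rw [Fin.snoc_last, Fin.snoc_castSucc]
          exact fun _ => hQt.mono fun ω h => h.2.2.2.2.2 z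
        · rw [Fin.snoc_castSucc, Fin.snoc_castSucc]
          exact fun hz => h7 z z' fun hzz => hz (by rw [hzz])

/-- Finitely many conditions on a new element of level `0` are consistent. -/
theorem onestep (h : Stage B D F) (c : ℕ) : ∀ (I : Type) [Finite I] (a : I → (Nm M ι → M) → M)
    (e : I → Prop), (∀ i, FS D (a i)) → (∀ i, ∀ᶠ ω in F, B.P (a i ω)) →
    (∀ i j, i ≠ j → ∀ᶠ ω in F, a i ω ≠ a j ω) → ∀ (J : Type) [Fintype J], Fintype.card J = c →
    ∀ (n : J → ℕ) (G : J → (Nm M ι → M) → M → M),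
    (∀ j, FS (D ∩ {x | lev x ≤ n j}) (G j)) →
    ¬ ∀ᶠ ω in F, ∀ v, B.P v → (∀ i, v ≠ a i ω ∧ (B.R v (a i ω) ↔ e i)) →
      ∃ j, B.E (n j + 1) (G j ω v) (ω (.t (n j + 1))) := by
  classical
  have := h.nebot
  have hne : Nonempty M := by
    obtain ⟨x, -⟩ := B.root
    exact ⟨x⟩
  induction c using Nat.strong_induction_on with
  | _ c ih =>
  intro I _ a e ha hP hinj J _ hJ n G hG hcon
  rcases isEmpty_or_nonempty J with hJe | hJn
  · have h1 : ∀ᶠ ω in F, ∀ i, B.P (a i ω) := eventually_all.2 hP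
    have h2 : ∀ᶠ ω in F, ∀ i j, i ≠ j → a i ω ≠ a j ω := by
      refine eventually_all.2 fun i => eventually_all.2 fun j => ?_
      by_cases hij : i = j
      · exact Eventually.of_forall fun ω h => absurd hij h
      · exact (hinj i j hij).mono fun ω h _ => h
    obtain ⟨ω, h3, h4, h5⟩ := (hcon.and (h1.and h2)).exists
    obtain ⟨v, h6, h7⟩ := B.ext I (fun i => a i ω) e h4 fun i j hij => by
      by_contra hne
      exact h5 i j hne hij
    obtain ⟨j, -⟩ := h3 v h6 h7
    exact hJe.elim j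
  · obtain ⟨j₀, hj₀⟩ := Finite.exists_max n
    let N : ℕ := n j₀
    have hN : ∀ j, n j ≤ N := hj₀
    let DN : Set (Nm M ι) := D ∩ {x | lev x ≤ N}
    let low : I → Prop := fun i => ∃ Y : (Nm M ι → M) → M, FS DN Y ∧ ∀ᶠ ω in F, a i ω = Y ω
    have hlow : ∀ i : {i // low i}, ∃ Y : (Nm M ι → M) → M, FS DN Y ∧ ∀ᶠ ω in F, a i.1 ω = Y ω :=
      fun i => i.2
    choose Y hY hYa using hlow
    have hout : ∀ (i : {i // ¬ low i}) (X : (Nm M ι → M) → M), FS DN X →
        ∀ᶠ ω in F, a i.1 ω ≠ X ω := by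
      intro i X hX
      refine (h.not_iff (p := fun ω => a i.1 ω = X ω) ?_).1 fun h1 => i.2 ⟨X, hX, h1⟩
      exact (ha i.1).comp₂ (hX.mono Set.inter_subset_left) fun x y => x = y
    -- the statement that is copied
    let Ψ : (Nm M ι → M) → (({i // ¬ low i} → M) × M) → Prop := fun ω y =>
      ∀ v, B.P v → (∀ i, v ≠ Y i ω ∧ (B.R v (Y i ω) ↔ e i.1)) →
        (∀ i, v ≠ y.1 i ∧ (B.R v (y.1 i) ↔ e i.1)) →
        (∃ j, n j ≠ N ∧ B.E (n j + 1) (G j ω v) (ω (.t (n j + 1)))) ∨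
          ∃ j, n j = N ∧ B.E (N + 1) (G j ω v) y.2
    have hΨ : FS DN Ψ := by
      have h1 := FS.pi hY
      have h2 : FS DN fun ω (j : J) => G j ω :=
        FS.pi fun j => (hG j).mono fun x hx => ⟨hx.1, le_trans hx.2 (hN j)⟩
      have h3 : FS DN fun (ω : Nm M ι → M) (j : {j // n j ≠ N}) => ω (.t (n j.1 + 1)) := by
        refine FS.pi fun j => FS.coord ⟨h.tmem _, ?_⟩
        exact lt_of_le_of_ne (hN j.1) j.2
      have h4 := h1.pair (h2.pair h3)
      refine (h4.comp fun (q : ({i // low i} → M) × ((J → M → M) × ({j // n j ≠ N} → M)))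
        (y : ({i // ¬ low i} → M) × M) => ∀ v, B.P v → (∀ i, v ≠ q.1 i ∧ (B.R v (q.1 i) ↔ e i.1)) →
        (∀ i, v ≠ y.1 i ∧ (B.R v (y.1 i) ↔ e i.1)) →
        (∃ (j : J) (hj : n j ≠ N), B.E (n j + 1) (q.2.1 j v) (q.2.2 ⟨j, hj⟩)) ∨
          ∃ j, n j = N ∧ B.E (N + 1) (q.2.1 j v) y.2).elim fun S hS => ?_
      refine ⟨S, hS.1, hS.2.1, fun ω ω' hω => ?_⟩
      have h5 := hS.2.2 ω ω' hω
      simpa only [Ψ, exists_prop] using h5
    have hΨt : ∀ᶠ ω in F, Ψ ω (fun i => a i.1 ω, ω (.t (N + 1))) := by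
      have h1 : ∀ᶠ ω in F, ∀ i, a i.1 ω = Y i ω := eventually_all.2 hYa
      filter_upwards [hcon, h1] with ω h2 h3 v hv h4 h5
      obtain ⟨j, hj⟩ := h2 v hv fun i => by
        by_cases hi : low i
        · have h6 := h4 ⟨i, hi⟩
          rw [← h3 ⟨i, hi⟩] at h6
          exact h6
        · exact h5 ⟨i, hi⟩
      by_cases hjN : n j = N
      · refine Or.inr ⟨j, hjN, ?_⟩
        rw [hjN] at hj
        exact hj
      · exact Or.inl ⟨j, hjN, hj⟩
    obtain ⟨w, w1, w2, w3, w4, w5, w6, w7⟩ := copies h N (fun i : {i // ¬ low i} => a i.1)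
      (fun i => hP i.1) (fun i j hij => hinj i.1 j.1 fun h => hij (Subtype.ext h))
      hout Ψ hΨ hΨt Y hY (Fintype.card J + 1)
    -- the new conditions
    let I' : Type := {i // low i} ⊕ (Fin (Fintype.card J + 1) × {i // ¬ low i})
    let a' : I' → (Nm M ι → M) → M := fun i ω => match i with
      | Sum.inl i => Y i ω
      | Sum.inr (z, i) => (w z ω).1 i
    let e' : I' → Prop := fun i => match i with
      | Sum.inl i => e i.1
      | Sum.inr (_, i) => e i.1
    have hcard : Fintype.card {j // n j ≠ N} < c := by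
      rw [← hJ]
      exact Fintype.card_subtype_lt (x := j₀) (by simp [N])
    refine ih _ hcard I' a' e' ?_ ?_ ?_ {j // n j ≠ N} rfl (fun j => n j.1) (fun j => G j.1)
      (fun j => hG j.1) ?_
    · rintro (i | ⟨z, i⟩)
      · exact (hY i).mono Set.inter_subset_left
      · exact ((w1 z).comp fun q => q.1 i).mono Set.inter_subset_left
    · rintro (i | ⟨z, i⟩)
      · filter_upwards [hP i.1, hYa i] with ω h1 h2
        change B.P (Y i ω)
        rw [← h2]
        exact h1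
      · exact w3 z i
    · rintro (i | ⟨z, i⟩) (j | ⟨z', j⟩) hij
      · have hij' : i.1 ≠ j.1 := fun h => hij (by rw [Subtype.ext h])
        filter_upwards [hinj i.1 j.1 hij', hYa i, hYa j] with ω h1 h2 h3
        change Y i ω ≠ Y j ω
        rw [← h2, ← h3]
        exact h1
      · exact (w5 z' j i).mono fun ω h => h.symm
      · exact w5 z i j
      · by_cases hz : z = z'
        · subst hz
          exact w4 z i j fun h => hij (by rw [h])
        · exact w6 z z' hz i j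
    · have hw2 : ∀ᶠ ω in F, ∀ z, Ψ ω (w z ω) := eventually_all.2 w2
      have hw7 : ∀ᶠ ω in F, ∀ z z', z ≠ z' → ¬ B.E (N + 1) (w z ω).2 (w z' ω).2 := by
        refine eventually_all.2 fun z => eventually_all.2 fun z' => ?_
        by_cases hz : z = z'
        · exact Eventually.of_forall fun ω h => absurd hz h
        · exact (w7 z z' hz).mono fun ω h _ => h
      filter_upwards [hw2, hw7] with ω h1 h2 v hv h3
      by_contra hno
      have h4 : ∀ z, ∃ j, n j = N ∧ B.E (N + 1) (G j ω v) (w z ω).2 := by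
        intro z
        rcases h1 z v hv (fun i => h3 (Sum.inl i)) (fun i => h3 (Sum.inr (z, i))) with
          ⟨j, hj, hj'⟩ | hj
        · exact absurd ⟨⟨j, hj⟩, hj'⟩ hno
        · exact hj
      choose f hf hf' using h4
      obtain ⟨z, z', hz, hzz⟩ := Fintype.exists_ne_map_eq_of_card_lt f (by simp)
      refine h2 z z' hz (B.trans _ _ _ _ (B.symm _ _ _ (hf' z)) ?_)
      rw [hzz]
      exact hf' z'

end onestep

end Pool.Agent.Helper69.Io
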