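import Pool.Agent.Helper69.Io.Zorn
import Pool.Graph.R_pool_sql_team_seeded_b0a926ef.R598.IO.Sat

/-!
# The elementary substructure of an ultrapower that consists of the finitely supported functions
-/

set_option autoImplicit false

namespace Pool.Agent.Helper69.Io

open Filter FirstOrder FirstOrder.Language

variable {L : FirstOrder.Language.{0, 0}} {N M : Type} [L.Structure M] [Nonempty M]

/-- The ultrapower. -/
abbrev Up (U : Ultrafilter (N → M)) : Type := (U : Filter (N → M)).Product fun _ => M

/-- The classes of the finitely supported functions. -/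
def hull (L : FirstOrder.Language.{0, 0}) [L.Structure M] (U : Ultrafilter (N → M)) :
    L.Substructure (Up U) where
  carrier := {y | ∃ X : (N → M) → M, FS Set.univ X ∧ ((X : (a : N → M) → (fun _ => M) a) : Up U) = y}
  fun_mem := by
    intro n f x hx
    choose X hX hXx using hx
    refine ⟨fun ω => Structure.funMap f fun i => X i ω, (FS.pi hX).comp (Structure.funMap f), ?_⟩
    have h1 : x = fun i => ((X i : (a : N → M) → (fun _ => M) a) : Up U) := by
      funext i
      exact (hXx i).symm
    rw [h1]
    exact (Ultraproduct.funMap_cast f X).symm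

/-- The class of a finitely supported function. -/
def cls (L : FirstOrder.Language.{0, 0}) [L.Structure M] (U : Ultrafilter (N → M)) (X : (N → M) → M)
    (hX : FS Set.univ X) : hull L U :=
  ⟨((X : (a : N → M) → (fun _ => M) a) : Up U), X, hX, rfl⟩

omit [Nonempty M] in
theorem exists_cls {U : Ultrafilter (N → M)} (x : hull L U) :
    ∃ (X : (N → M) → M) (hX : FS Set.univ X), cls L U X hX = x := by
  obtain ⟨y, X, hX, rfl⟩ := x
  exact ⟨X, hX, rfl⟩

/-- The class of a function. -/
def mkU (U : Ultrafilter (N → M)) (Y : (N → M) → M) : Up U :=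
  ((Y : (a : N → M) → (fun _ => M) a) : Up U)

theorem realize_snoc (U : Ultrafilter (N → M)) {n : ℕ} (φ : L.BoundedFormula Empty (n + 1))
    (x : Fin n → hull L U) (X : Fin n → (N → M) → M) (hX : ∀ i, mkU U (X i) = (x i).1)
    (Y : (N → M) → M) : (φ.Realize (default : Empty → Up U)
      (Fin.snoc (α := fun _ => Up U) (Subtype.val ∘ x) (mkU U Y)) ↔
      ∀ᶠ ω in (U : Filter _), φ.Realize (default : Empty → M)
        (Fin.snoc (fun i => X i ω) (Y ω) : Fin (n + 1) → M)) := by
  have h2 := Ultraproduct.boundedFormula_realize_cast (u := U) (M := fun _ : N → M => M) φ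
      (fun i : Empty => i.elim) (Fin.snoc (α := fun _ => (ω : N → M) → (fun _ => M) ω) X Y)
  have h3 : (fun i => mkU U (Fin.snoc (α := fun _ => (N → M) → M) X Y i)) =
      (Fin.snoc (α := fun _ => Up U) (Subtype.val ∘ x) (mkU U Y)) := by
    funext i
    refine Fin.lastCases ?_ (fun i => ?_) i
    · rw [Fin.snoc_last, Fin.snoc_last]
    · rw [Fin.snoc_castSucc, Fin.snoc_castSucc]
      exact hX i
  have h4 : (default : Empty → Up U) = fun i : Empty => mkU U i.elim := Subsingleton.elim _ _
  have h5 : ∀ ω : N → M, (fun i => Fin.snoc (α := fun _ => (ω : N → M) → (fun _ => M) ω) X Y i ω)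
      = (Fin.snoc (fun i => X i ω) (Y ω) : Fin (n + 1) → M) := by
    intro ω
    funext i
    refine Fin.lastCases ?_ (fun i => ?_) i
    · simp only [Fin.snoc_last]
    · simp only [Fin.snoc_castSucc]
  rw [← h3, h4]
  refine h2.trans (eventually_congr (Eventually.of_forall fun ω => ?_))
  rw [h5 ω]
  exact iff_of_eq (congrArg (fun d => φ.Realize d _) (Subsingleton.elim _ _))

theorem hull_elem (U : Ultrafilter (N → M)) : (hull L U).IsElementary := by
  refine Substructure.isElementary_of_exists _ fun n φ x a h => ?_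
  choose X hX hXx using fun i => exists_cls (x i)
  obtain ⟨A, rfl⟩ : ∃ A, mkU U A = a := Quotient.exists_rep a
  have h0 : ∀ i, mkU U (X i) = (x i).1 := fun i => congrArg Subtype.val (hXx i)
  have h6 := (realize_snoc U φ x X h0 A).1 h
  let P : (N → M) → M → Prop := fun ω y => φ.Realize (default : Empty → M)
        (Fin.snoc (fun i => X i ω) y : Fin (n + 1) → M)
  have hP : FS (Set.univ : Set N) P :=
    (FS.pi hX).comp fun (q : Fin n → M) y => φ.Realize (default : Empty → M)
        (Fin.snoc q y : Fin (n + 1) → M)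
  obtain ⟨w, hw, hw'⟩ := hP.skolem
  refine ⟨cls L U w hw, (realize_snoc U φ x X h0 w).2 ?_⟩
  exact h6.mono fun ω hω => hw' ω ⟨_, hω⟩

theorem hull_realize (U : Ultrafilter (N → M)) {α : Type} (φ : L.Formula α)
    (X : α → (N → M) → M) (hX : ∀ a, FS Set.univ (X a)) :
    (φ.Realize fun a => cls L U (X a) (hX a)) ↔ ∀ᶠ ω in (U : Filter _), φ.Realize fun a => X a ω := by
  have h1 := Ultraproduct.realize_formula_cast (u := U) (M := fun _ : N → M => M) φ X
  rw [← h1]
  have h2 := ElementaryEmbedding.map_formula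
    (ElementarySubstructure.subtype ⟨hull L U, hull_elem U⟩) φ (fun a => cls L U (X a) (hX a))
  exact h2.symm

theorem hull_model (U : Ultrafilter (N → M)) {T : L.Theory} (h : M ⊨ T) : hull L U ⊨ T := by
  have h1 : Up U ⊨ T := by
    refine ⟨fun φ hφ => ?_⟩
    rw [Ultraproduct.sentence_realize]
    exact Eventually.of_forall fun ω => h.realize_of_mem φ hφ
  exact (ElementarySubstructure.theory_model_iff ⟨hull L U, hull_elem U⟩ T).2 h1

theorem hull_nonempty (U : Ultrafilter (N → M)) : Nonempty (hull L U) := by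
  obtain ⟨x⟩ := ‹Nonempty M›
  exact ⟨cls L U (fun _ => x) (FS.const x)⟩

theorem cls_eq {U : Ultrafilter (N → M)} {X Y : (N → M) → M} {hX : FS Set.univ X}
    {hY : FS Set.univ Y} : cls L U X hX = cls L U Y hY ↔ ∀ᶠ ω in (U : Filter _), X ω = Y ω := by
  have h := hull_realize (L := L) U ((Term.var (0 : Fin 2)).equal (Term.var 1) : L.Formula (Fin 2))
    ![X, Y] (fun a => by fin_cases a <;> assumption)
  rw [Formula.realize_equal] at h
  simp only [Formula.realize_equal] at h
  exact h

theorem realize_two {U : Ultrafilter (N → M)} (φ : L.Formula (Fin 2)) {X Y : (N → M) → M}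
    {hX : FS Set.univ X} {hY : FS Set.univ Y} : φ.Realize ![cls L U X hX, cls L U Y hY] ↔
      ∀ᶠ ω in (U : Filter _), φ.Realize ![X ω, Y ω] := by
  have h0 : ∀ a, FS Set.univ ((![X, Y] : Fin 2 → (N → M) → M) a) := by
    intro a
    fin_cases a
    · exact hX
    · exact hY
  have h := hull_realize (L := L) U φ ![X, Y] h0
  have h1 : (fun a => cls L U ((![X, Y] : Fin 2 → (N → M) → M) a) (h0 a)) =
      ![cls L U X hX, cls L U Y hY] := by
    funext a
    fin_cases a <;> rfl
  rw [h1] at h
  rw [h]
  refine eventually_congr (Eventually.of_forall fun ω => ?_)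
  have h2 : (fun a => (![X, Y] : Fin 2 → (N → M) → M) a ω) = ![X ω, Y ω] := by
    funext a
    fin_cases a <;> rfl
  rw [h2]

/-- A finitely supported function is a function of finitely many coordinates. -/
theorem FS.exists_val {X : (N → M) → M} (hX : FS Set.univ X) :
    ∃ (k : ℕ) (x : Fin k → N) (g : (Fin k → M) → M), ∀ ω, X ω = g fun j => ω (x j) := by
  classical
  obtain ⟨F, h1, -, h3⟩ := hX
  obtain ⟨m₀⟩ := ‹Nonempty M›
  obtain ⟨k, x, -, hx⟩ := h1.fin_param
  refine ⟨k, x, fun y => X fun z => if h : ∃ j, x j = z then y h.choose else m₀, fun ω => ?_⟩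
  refine h3 _ _ fun z hz => ?_
  have h4 : ∃ j, x j = z := by
    rw [← hx] at hz
    exact hz
  rw [dif_pos h4]
  exact (congrArg ω h4.choose_spec).symm

end Pool.Agent.Helper69.Io
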