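import Pool.Agent.Helper69.Io.Theories

/-!
# Elimination of quantifiers, stability, saturation
-/

set_option autoImplicit false

namespace Pool.Agent.Helper69.Io

open Filter FirstOrder FirstOrder.Language Cardinal
open Pool.Agent.R598.IO

section E

variable {K K' : Type} [LE.Structure K] [LE.Structure K']

/-- The tuples satisfy the same equalities and the same relations with numbers below `N`. -/
def SameE (N : ℕ) {β : Type} (v : β → K) (v' : β → K') : Prop :=
  ∀ b b', (v b = v b' ↔ v' b = v' b') ∧ ∀ n < N, (EE n (v b) (v b') ↔ EE n (v' b) (v' b'))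

theorem SameE.symm' {N : ℕ} {β : Type} {v : β → K} {v' : β → K'} (h : SameE N v v') :
    SameE N v' v := fun b b' => ⟨(h b b').1.symm, fun n hn => ((h b b').2 n hn).symm⟩

theorem EProp.mono (hK : EProp K) {m n : ℕ} (hmn : m ≤ n) {x y : K} (h : EE n x y) : EE m x y := by
  induction n, hmn using Nat.le_induction with
  | base => exact h
  | succ n _ ih => exact ih (hK.succ _ _ _ h)

theorem SameE.ext {N : ℕ} {β : Type} [Finite β] (hK : EProp K) (hK' : EProp K') {v : β → K}
    {v' : β → K'} (h : SameE N v v') (x : K) :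
    ∃ x' : K', ∀ b, (v b = x ↔ v' b = x') ∧ ∀ n < N, (EE n (v b) x ↔ EE n (v' b) x') := by
  classical
  by_cases hx : ∃ b₀, v b₀ = x
  · obtain ⟨b₀, rfl⟩ := hx
    exact ⟨v' b₀, fun b => h b b₀⟩
  · obtain ⟨k, c, -, hc⟩ := (Set.finite_range v').fin_param
    have hc' : ∀ b, ∃ i, c i = v' b := by
      intro b
      have : v' b ∈ Set.range c := by rw [hc]; exact ⟨b, rfl⟩
      exact this
    by_cases hP : ∃ n < N, ∃ b, EE n (v b) x
    · obtain ⟨m, ⟨hmN, b₀, hb₀⟩, hmax⟩ : ∃ m, (m < N ∧ ∃ b, EE m (v b) x) ∧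
          ∀ n, (n < N ∧ ∃ b, EE n (v b) x) → n ≤ m := by
        obtain ⟨n, hn⟩ := hP
        have hfin : {n | n < N ∧ ∃ b, EE n (v b) x}.Finite :=
          (Set.finite_lt_nat N).subset fun n hn => hn.1
        obtain ⟨m, hm, hm'⟩ := Set.exists_max_image _ (fun n : ℕ => n) hfin ⟨n, hn⟩
        exact ⟨m, hm, hm'⟩
      obtain ⟨x', h1, h2⟩ := hK'.split m k (v' b₀) c
      have h2' : ∀ b, ¬ EE (m + 1) (v' b) x' := by
        intro b
        obtain ⟨i, hi⟩ := hc' b
        rw [← hi]
        exact h2 i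
      refine ⟨x', fun b => ⟨⟨fun h3 => absurd ⟨b, h3⟩ hx, fun h3 => ?_⟩, fun n hn => ?_⟩⟩
      · exact absurd (h3 ▸ hK'.refl _ _) (h2' b)
      · rcases Nat.lt_or_ge m n with h3 | h3
        · constructor
          · intro h4
            exact absurd (hmax n ⟨hn, b, h4⟩) (not_le.2 h3)
          · intro h4
            exact absurd (hK'.mono h3 h4) (h2' b)
        · have h4 := hK.mono h3 hb₀
          have h5 := hK'.mono h3 h1
          have h6 := (h b b₀).2 n hn
          constructor
          · intro h7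
            exact hK'.trans _ _ _ _ (h6.1 (hK.trans _ _ _ _ h7 (hK.symm _ _ _ h4))) h5
          · intro h7
            exact hK.trans _ _ _ _ (h6.2 (hK'.trans _ _ _ _ h7 (hK'.symm _ _ _ h5))) h4
    · push Not at hP
      obtain ⟨y⟩ := hK'.ne
      obtain ⟨x', -, h2⟩ := hK'.split 0 k y c
      have h2' : ∀ b, ¬ v' b = x' := by
        intro b hb
        obtain ⟨i, hi⟩ := hc' b
        exact h2 i (hi ▸ hb ▸ hK'.refl _ _)
      refine ⟨x', fun b => ⟨⟨fun h3 => absurd ⟨b, h3⟩ hx, fun h3 => absurd h3 (h2' b)⟩,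
        fun n hn => ?_⟩⟩
      exact absurd (hK.mono (Nat.zero_le _) (hK.zero (v b) x)) (fun h0 => hP 0 (by omega) b h0)

theorem SameE.snoc {N : ℕ} {α : Type} {n : ℕ} [Finite α] (hK : EProp K) (hK' : EProp K')
    {v : α → K} {xs : Fin n → K} {v' : α → K'} {xs' : Fin n → K'}
    (h : SameE N (Sum.elim v xs) (Sum.elim v' xs')) (x : K) :
    ∃ x' : K', SameE N (Sum.elim v (Fin.snoc xs x : Fin (n + 1) → K))
      (Sum.elim v' (Fin.snoc xs' x' : Fin (n + 1) → K')) := by
  obtain ⟨x', hx'⟩ := h.ext hK hK' x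
  refine ⟨x', ?_⟩
  -- a variable is old or the new one
  have hold : ∀ b : α ⊕ Fin (n + 1), (∃ a : α ⊕ Fin n,
      Sum.elim v (Fin.snoc xs x : Fin (n + 1) → K) b = Sum.elim v xs a ∧
      Sum.elim v' (Fin.snoc xs' x' : Fin (n + 1) → K') b = Sum.elim v' xs' a) ∨
      (Sum.elim v (Fin.snoc xs x : Fin (n + 1) → K) b = x ∧
      Sum.elim v' (Fin.snoc xs' x' : Fin (n + 1) → K') b = x') := by
    rintro (a | i)
    · exact Or.inl ⟨Sum.inl a, rfl, rfl⟩
    · refine Fin.lastCases ?_ (fun i => ?_) i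
      · exact Or.inr ⟨by simp, by simp⟩
      · exact Or.inl ⟨Sum.inr i, by simp, by simp⟩
  intro b b'
  rcases hold b with ⟨a, h1, h2⟩ | ⟨h1, h2⟩ <;> rcases hold b' with ⟨a', h3, h4⟩ | ⟨h3, h4⟩ <;>
    rw [h1, h2, h3, h4]
  · exact h a a'
  · exact hx' a
  · refine ⟨⟨fun h5 => ((hx' a').1.1 h5.symm).symm, fun h5 => ((hx' a').1.2 h5.symm).symm⟩,
      fun m hm => ⟨fun h5 => ?_, fun h5 => ?_⟩⟩
    · exact hK'.symm _ _ _ (((hx' a').2 m hm).1 (hK.symm _ _ _ h5))
    · exact hK.symm _ _ _ (((hx' a').2 m hm).2 (hK'.symm _ _ _ h5))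
  · exact ⟨⟨fun _ => rfl, fun _ => rfl⟩, fun m hm => ⟨fun _ => hK'.refl _ _, fun _ => hK.refl _ _⟩⟩

theorem term_le {β : Type} (t : LE.Term β) : ∃ b, t = Term.var b := by
  cases t with
  | var b => exact ⟨b, rfl⟩
  | func f _ => exact Empty.elim f

theorem rel_le {l : ℕ} (r : LE.Relations l) : ∃ m, ∃ h : 2 = l, r = h ▸ symE m := by
  change ERel l at r
  cases r with
  | E m => exact ⟨m, rfl, rfl⟩

/-- The truth of a formula depends on finitely many equivalence relations. -/
theorem sameE_realize (hK : EProp K) (hK' : EProp K') {α : Type} [Finite α] {n : ℕ}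
    (φ : LE.BoundedFormula α n) : ∃ N₀, ∀ N, N₀ ≤ N → ∀ (v : α → K) (xs : Fin n → K) (v' : α → K')
    (xs' : Fin n → K'), SameE N (Sum.elim v xs) (Sum.elim v' xs') →
      (φ.Realize v xs ↔ φ.Realize v' xs') := by
  induction φ with
  | falsum => exact ⟨0, fun _ _ _ _ _ _ _ => Iff.rfl⟩
  | equal t₁ t₂ =>
    obtain ⟨b, rfl⟩ := term_le t₁
    obtain ⟨b', rfl⟩ := term_le t₂
    exact ⟨0, fun N _ v xs v' xs' h => (h b b').1⟩
  | rel r ts =>
      obtain ⟨m, rfl, rfl⟩ := rel_le r
      refine ⟨m + 1, fun N hN v xs v' xs' h => ?_⟩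
      obtain ⟨b, hb⟩ := term_le (ts 0)
      obtain ⟨b', hb'⟩ := term_le (ts 1)
      have h1 := (h b b').2 m hN
      have h2 : ∀ {K : Type} [LE.Structure K] (w : _ → K), (fun i => (ts i).realize w) =
          ![w b, w b'] := by
        intro K _ w
        funext i
        fin_cases i
        · change (ts 0).realize w = w b
          rw [hb]
          rfl
        · change (ts 1).realize w = w b'
          rw [hb']
          rfl
      change (Structure.RelMap (symE m) fun i => (ts i).realize (Sum.elim v xs)) ↔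
        Structure.RelMap (symE m) fun i => (ts i).realize (Sum.elim v' xs')
      rw [h2, h2]
      exact h1
  | imp f g hf hg =>
    obtain ⟨N₁, h1⟩ := hf
    obtain ⟨N₂, h2⟩ := hg
    refine ⟨max N₁ N₂, fun N hN v xs v' xs' h => ?_⟩
    exact imp_congr (h1 N (le_trans (le_max_left _ _) hN) v xs v' xs' h)
      (h2 N (le_trans (le_max_right _ _) hN) v xs v' xs' h)
  | all f hf =>
    obtain ⟨N₁, h1⟩ := hf
    refine ⟨N₁, fun N hN v xs v' xs' h => ?_⟩
    rw [BoundedFormula.realize_all, BoundedFormula.realize_all]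
    constructor
    · intro h2 x'
      obtain ⟨x, hx⟩ := h.symm'.snoc hK' hK x'
      exact (h1 N hN _ _ _ _ hx.symm').1 (h2 x)
    · intro h2 x
      obtain ⟨x', hx⟩ := h.snoc hK hK' x
      exact (h1 N hN _ _ _ _ hx).2 (h2 x')

end E

/-- Limits commute for an equivalence relation. -/
theorem limits_commute {K : Type} (E : K → K → Prop) (symm : ∀ x y, E x y → E y x)
    (trans : ∀ x y z, E x y → E y z → E x z) (W : Ultrafilter ℕ) (a b : ℕ → K)
    (h : ∀ᶠ i in (W : Filter ℕ), ∀ᶠ j in (W : Filter ℕ), E (a i) (b j)) :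
    ∀ᶠ j in (W : Filter ℕ), ∀ᶠ i in (W : Filter ℕ), E (a i) (b j) := by
  obtain ⟨i₀, hi₀⟩ := h.exists
  filter_upwards [hi₀] with j hj
  filter_upwards [h] with i hi
  obtain ⟨j', h1, h2⟩ := (hi.and hi₀).exists
  exact trans _ _ _ h1 (trans _ _ _ (symm _ _ h2) hj)

/-- The theory of refining equivalence relations is stable. -/
theorem te_stable : ¬ Unstable TE := by
  classical
  rintro ⟨m, n, φ, M, a, b, hab⟩
  have hM : EProp M := eprop_of_model M.is_model
  obtain ⟨N, hN⟩ := sameE_realize hM hM φ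
  have hN' := fun v v' => hN N le_rfl v (default : Fin 0 → M) v' (default : Fin 0 → M)
  let W : Ultrafilter ℕ := hyperfilter ℕ
  -- the tuples
  let w : ℕ → ℕ → (Fin m ⊕ Fin n) → M := fun i j => Sum.elim (a i) (b j)
  -- equivalence relations, with equality
  let Q : Option (Fin N) → M → M → Prop := fun o x y => match o with
    | none => x = y
    | some k => EE k.1 x y
  have Qsymm : ∀ o x y, Q o x y → Q o y x := by
    intro o x y h
    cases o with
    | none => exact Eq.symm h
    | some k => exact hM.symm _ _ _ h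
  have Qtrans : ∀ o x y z, Q o x y → Q o y z → Q o x z := by
    intro o x y z h h'
    cases o with
    | none => exact Eq.trans h h'
    | some k => exact hM.trans _ _ _ _ h h'
  have hcomm : ∀ (o : Option (Fin N)) (s s' : Fin m ⊕ Fin n),
      (∀ᶠ i in (W : Filter ℕ), ∀ᶠ j in (W : Filter ℕ), Q o (w i j s) (w i j s')) ↔
      ∀ᶠ j in (W : Filter ℕ), ∀ᶠ i in (W : Filter ℕ), Q o (w i j s) (w i j s') := by
    intro o s s'
    rcases s with s | s <;> rcases s' with s' | s'
    · simp only [w, Sum.elim_inl]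
      simp only [eventually_const]
    · simp only [w, Sum.elim_inl, Sum.elim_inr]
      constructor
      · intro h
        exact limits_commute (Q o) (Qsymm o) (Qtrans o) W (fun i => a i s) (fun j => b j s') h
      · intro h
        have h1 := limits_commute (Q o) (Qsymm o) (Qtrans o) W (fun j => b j s')
          (fun i => a i s) (h.mono fun j hj => hj.mono fun i hi => Qsymm o _ _ hi)
        exact h1.mono fun i hi => hi.mono fun j hj => Qsymm o _ _ hj
    · simp only [w, Sum.elim_inl, Sum.elim_inr]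
      constructor
      · intro h
        have h1 := limits_commute (Q o) (Qsymm o) (Qtrans o) W (fun i => a i s')
          (fun j => b j s) (h.mono fun j hj => hj.mono fun i hi => Qsymm o _ _ hi)
        exact h1.mono fun i hi => hi.mono fun j hj => Qsymm o _ _ hj
      · intro h
        exact limits_commute (Q o) (Qsymm o) (Qtrans o) W (fun j => b j s) (fun i => a i s') h
    · simp only [w, Sum.elim_inr]
      simp only [eventually_const]
  -- the limit pattern
  let π : Option (Fin N) → (Fin m ⊕ Fin n) → (Fin m ⊕ Fin n) → Prop := fun o s s' =>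
    ∀ᶠ i in (W : Filter ℕ), ∀ᶠ j in (W : Filter ℕ), Q o (w i j s) (w i j s')
  have h1 : ∀ᶠ i in (W : Filter ℕ), ∀ᶠ j in (W : Filter ℕ), ∀ o s s',
      (Q o (w i j s) (w i j s') ↔ π o s s') := by
    simp only [eventually_all]
    intro o s s'
    by_cases hπ : π o s s'
    · exact hπ.mono fun i hi => hi.mono fun j hj => ⟨fun _ => hπ, fun _ => hj⟩
    · have h2 : ∀ᶠ i in (W : Filter ℕ), ∀ᶠ j in (W : Filter ℕ), ¬ Q o (w i j s) (w i j s') := by
        have h3 := Ultrafilter.eventually_not.2 hπ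
        exact h3.mono fun i hi => Ultrafilter.eventually_not.2 hi
      exact h2.mono fun i hi => hi.mono fun j hj => ⟨fun h => absurd h hj, fun h => absurd h hπ⟩
  have h2 : ∀ᶠ j in (W : Filter ℕ), ∀ᶠ i in (W : Filter ℕ), ∀ o s s',
      (Q o (w i j s) (w i j s') ↔ π o s s') := by
    simp only [eventually_all]
    intro o s s'
    by_cases hπ : π o s s'
    · exact ((hcomm o s s').1 hπ).mono fun i hi => hi.mono fun j hj => ⟨fun _ => hπ, fun _ => hj⟩
    · have h2 : ∀ᶠ j in (W : Filter ℕ), ∀ᶠ i in (W : Filter ℕ), ¬ Q o (w i j s) (w i j s') := by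
        have h3 := Ultrafilter.eventually_not.2 (fun h => hπ ((hcomm o s s').2 h))
        exact h3.mono fun i hi => Ultrafilter.eventually_not.2 hi
      exact h2.mono fun i hi => hi.mono fun j hj => ⟨fun h => absurd h hj, fun h => absurd h hπ⟩
  have hW : ∀ k : ℕ, ∀ᶠ i in (W : Filter ℕ), k < i := by
    intro k
    have h3 : ∀ᶠ i in Filter.cofinite, k < i := by
      rw [Nat.cofinite_eq_atTop]
      exact eventually_gt_atTop k
    exact hyperfilter_le_cofinite h3
  obtain ⟨i, hi⟩ := h1.exists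
  obtain ⟨j, hj, hij⟩ := (hi.and (hW i)).exists
  obtain ⟨j', hj'⟩ := h2.exists
  obtain ⟨i', hi', hij'⟩ := (hj'.and (hW j')).exists
  have hsame : SameE N (Sum.elim (w i j) (default : Fin 0 → M))
      (Sum.elim (w i' j') (default : Fin 0 → M)) := by
    have h3 : ∀ o s s', (Q o (w i j s) (w i j s') ↔ Q o (w i' j' s) (w i' j' s')) :=
      fun o s s' => (hj o s s').trans (hi' o s s').symm
    rintro (s | s) (s' | s')
    · exact ⟨h3 none s s', fun k hk => h3 (some ⟨k, hk⟩) s s'⟩
    · exact s'.elim0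
    · exact s.elim0
    · exact s'.elim0
  have h4 := hN' _ _ hsame
  have h5 := (hab i j).2 hij
  have h6 := (hab i' j').1 (h4.1 h5)
  omega

section R

variable {K K' : Type} [LR.Structure K] [LR.Structure K']

/-- The tuples satisfy the same equalities and relations. -/
def SameR {β : Type} (v : β → K) (v' : β → K') : Prop :=
  ∀ b b', (v b = v b' ↔ v' b = v' b') ∧ (RR (v b) (v b') ↔ RR (v' b) (v' b'))

theorem SameR.symm' {β : Type} {v : β → K} {v' : β → K'} (h : SameR v v') :
    SameR v' v := fun b b' => ⟨(h b b').1.symm, (h b b').2.symm⟩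

/-- The extension property. -/
theorem RProp.ext' (hK : RProp K) {β : Type} [Finite β] (v : β → K) (e : K → Prop) :
    ∃ x, ∀ b, ¬ x = v b ∧ (RR x (v b) ↔ e (v b)) := by
  obtain ⟨k, c, hc, hcv⟩ := (Set.finite_range v).fin_param
  obtain ⟨x, hx⟩ := hK.ext k (fun i => e (c i)) c fun i j hij h => hij (hc h)
  refine ⟨x, fun b => ?_⟩
  have : v b ∈ Set.range c := by rw [hcv]; exact ⟨b, rfl⟩
  obtain ⟨i, hi⟩ := this
  rw [← hi]
  exact hx i

theorem SameR.ext (hK' : RProp K') {β : Type} [Finite β] {v : β → K} {v' : β → K'}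
    (h : SameR v v') (x : K) :
    ∃ x' : K', ∀ b, (v b = x ↔ v' b = x') ∧ (RR (v b) x ↔ RR (v' b) x') := by
  classical
  by_cases hx : ∃ b₀, v b₀ = x
  · obtain ⟨b₀, rfl⟩ := hx
    exact ⟨v' b₀, fun b => h b b₀⟩
  · obtain ⟨x', hx'⟩ := hK'.ext' v' fun y => ∃ b, v' b = y ∧ RR (v b) x
    refine ⟨x', fun b => ⟨⟨fun h1 => absurd ⟨b, h1⟩ hx, fun h1 => absurd h1.symm (hx' b).1⟩, ?_⟩⟩
    constructor
    · intro h1
      exact hK'.symm _ _ ((hx' b).2.2 ⟨b, rfl, h1⟩)
    · intro h1
      obtain ⟨b', h2, h3⟩ := (hx' b).2.1 (hK'.symm _ _ h1)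
      rw [(h b' b).1.2 h2] at h3
      exact h3

theorem SameR.snoc {α : Type} {n : ℕ} [Finite α] (hK : RProp K) (hK' : RProp K')
    {v : α → K} {xs : Fin n → K} {v' : α → K'} {xs' : Fin n → K'}
    (h : SameR (Sum.elim v xs) (Sum.elim v' xs')) (x : K) :
    ∃ x' : K', SameR (Sum.elim v (Fin.snoc xs x : Fin (n + 1) → K))
      (Sum.elim v' (Fin.snoc xs' x' : Fin (n + 1) → K')) := by
  obtain ⟨x', hx'⟩ := h.ext hK' x
  refine ⟨x', ?_⟩
  have hold : ∀ b : α ⊕ Fin (n + 1), (∃ a : α ⊕ Fin n,
      Sum.elim v (Fin.snoc xs x : Fin (n + 1) → K) b = Sum.elim v xs a ∧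
      Sum.elim v' (Fin.snoc xs' x' : Fin (n + 1) → K') b = Sum.elim v' xs' a) ∨
      (Sum.elim v (Fin.snoc xs x : Fin (n + 1) → K) b = x ∧
      Sum.elim v' (Fin.snoc xs' x' : Fin (n + 1) → K') b = x') := by
    rintro (a | i)
    · exact Or.inl ⟨Sum.inl a, rfl, rfl⟩
    · refine Fin.lastCases ?_ (fun i => ?_) i
      · exact Or.inr ⟨by simp, by simp⟩
      · exact Or.inl ⟨Sum.inr i, by simp, by simp⟩
  intro b b'
  rcases hold b with ⟨a, h1, h2⟩ | ⟨h1, h2⟩ <;> rcases hold b' with ⟨a', h3, h4⟩ | ⟨h3, h4⟩ <;>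
    rw [h1, h2, h3, h4]
  · exact h a a'
  · exact hx' a
  · refine ⟨⟨fun h5 => ((hx' a').1.1 h5.symm).symm, fun h5 => ((hx' a').1.2 h5.symm).symm⟩,
      ⟨fun h5 => ?_, fun h5 => ?_⟩⟩
    · exact hK'.symm _ _ ((hx' a').2.1 (hK.symm _ _ h5))
    · exact hK.symm _ _ ((hx' a').2.2 (hK'.symm _ _ h5))
  · exact ⟨⟨fun _ => rfl, fun _ => rfl⟩, ⟨fun h5 => absurd h5 (hK.irr _),
      fun h5 => absurd h5 (hK'.irr _)⟩⟩

theorem term_lr {β : Type} (t : LR.Term β) : ∃ b, t = Term.var b := by
  cases t with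
  | var b => exact ⟨b, rfl⟩
  | func f _ => exact Empty.elim f

theorem rel_lr {l : ℕ} (r : LR.Relations l) : ∃ h : 2 = l, r = h ▸ symR := by
  change RRel l at r
  cases r with
  | R => exact ⟨rfl, rfl⟩

/-- The truth of a formula depends on the quantifier-free type. -/
theorem sameR_realize (hK : RProp K) (hK' : RProp K') {α : Type} [Finite α] {n : ℕ}
    (φ : LR.BoundedFormula α n) (v : α → K) (xs : Fin n → K) (v' : α → K')
    (xs' : Fin n → K') (h : SameR (Sum.elim v xs) (Sum.elim v' xs')) :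
      (φ.Realize v xs ↔ φ.Realize v' xs') := by
  induction φ with
  | falsum => exact Iff.rfl
  | equal t₁ t₂ =>
    obtain ⟨b, rfl⟩ := term_lr t₁
    obtain ⟨b', rfl⟩ := term_lr t₂
    exact (h b b').1
  | rel r ts =>
      obtain ⟨rfl, rfl⟩ := rel_lr r
      obtain ⟨b, hb⟩ := term_lr (ts 0)
      obtain ⟨b', hb'⟩ := term_lr (ts 1)
      have h1 := (h b b').2
      have h2 : ∀ {K : Type} [LR.Structure K] (w : _ → K), (fun i => (ts i).realize w) =
          ![w b, w b'] := by
        intro K _ w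
        funext i
        fin_cases i
        · change (ts 0).realize w = w b
          rw [hb]
          rfl
        · change (ts 1).realize w = w b'
          rw [hb']
          rfl
      change (Structure.RelMap symR fun i => (ts i).realize (Sum.elim v xs)) ↔
        Structure.RelMap symR fun i => (ts i).realize (Sum.elim v' xs')
      rw [h2, h2]
      exact h1
  | imp f g hf hg => exact imp_congr (hf _ _ h) (hg _ _ h)
  | all f hf =>
    rw [BoundedFormula.realize_all, BoundedFormula.realize_all]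
    constructor
    · intro h2 x'
      obtain ⟨x, hx⟩ := h.symm'.snoc hK' hK x'
      exact (hf _ _ hx.symm').1 (h2 x)
    · intro h2 x
      obtain ⟨x', hx⟩ := h.snoc hK hK' x
      exact (hf _ _ hx).2 (h2 x')

/-- A random graph with the extension property for all sets of less than `lam` elements is
`lam`-saturated. -/
theorem isSat_of_ext (hK : RProp K) {lam : Cardinal.{0}} (hlam : ℵ₀ ≤ lam)
    (hext : ∀ A : Set K, #A < lam → ∀ e : K → Prop, ∃ x, ∀ a ∈ A, ¬ x = a ∧ (RR x a ↔ e a)) :
    IsSat lam LR K := by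
  classical
  intro n A hA p hp
  -- an ultrafilter that realizes the type
  let 𝒮 : Set (Set (Fin n → K)) := {S | ∃ φ ∈ p, S = {x | φ.Realize (Sum.elim Subtype.val x)}}
  have h𝒮 : (generate 𝒮).NeBot := by
    refine generate_neBot_iff.2 fun T hT hfin => ?_
    have h1 : ∀ S : T, ∃ φ ∈ p, S.1 = {x : Fin n → K | φ.Realize (Sum.elim Subtype.val x)} :=
      fun S => hT S.2
    choose f hf hf' using h1
    have : Finite T := hfin
    obtain ⟨x, hx⟩ := hp (Set.range f) (Set.finite_range f) (by
      rintro _ ⟨S, rfl⟩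
      exact hf S)
    refine ⟨x, fun S hS => ?_⟩
    rw [show S = _ from hf' ⟨S, hS⟩]
    exact hx _ ⟨_, rfl⟩
  obtain ⟨W, hW⟩ : ∃ W : Ultrafilter (Fin n → K), (W : Filter _) ≤ generate 𝒮 :=
    Ultrafilter.exists_le (generate 𝒮)
  have hWp : ∀ φ ∈ p, ∀ᶠ x in (W : Filter (Fin n → K)), φ.Realize (Sum.elim Subtype.val x) :=
    fun φ hφ => hW (mem_generate_of_mem ⟨φ, hφ, rfl⟩)
  -- the pattern is realized
  have key : ∀ k : ℕ, k ≤ n → ∃ y : Fin n → K, ∀ i : Fin n, i.1 < k →
      (∀ a ∈ A, ((y i = a ↔ ∀ᶠ x in (W : Filter (Fin n → K)), x i = a) ∧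
        (RR (y i) a ↔ ∀ᶠ x in (W : Filter (Fin n → K)), RR (x i) a))) ∧
      ∀ j : Fin n, j.1 < k → ((y i = y j ↔ ∀ᶠ x in (W : Filter (Fin n → K)), x i = x j) ∧
        (RR (y i) (y j) ↔ ∀ᶠ x in (W : Filter (Fin n → K)), RR (x i) (x j))) := by
    intro k
    induction k with
    | zero =>
      intro _
      obtain ⟨x, -⟩ := hext ∅ (by
        rw [mk_eq_zero]
        exact lt_of_lt_of_le aleph0_pos hlam) fun _ => True
      exact ⟨fun _ => x, fun i hi => absurd hi (Nat.not_lt_zero _)⟩
    | succ k ih =>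
      intro hk
      obtain ⟨y, hy⟩ := ih (Nat.le_of_succ_le hk)
      let l : Fin n := ⟨k, hk⟩
      -- it suffices to find the value for the new variable
      suffices h : ∃ z : K, (∀ a ∈ A, ((z = a ↔ ∀ᶠ x in (W : Filter (Fin n → K)), x l = a) ∧
          (RR z a ↔ ∀ᶠ x in (W : Filter (Fin n → K)), RR (x l) a))) ∧
          ∀ j : Fin n, j.1 < k → ((z = y j ↔ ∀ᶠ x in (W : Filter (Fin n → K)), x l = x j) ∧
          (RR z (y j) ↔ ∀ᶠ x in (W : Filter (Fin n → K)), RR (x l) (x j))) by
        obtain ⟨z, h1, h2⟩ := h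
        refine ⟨Function.update y l z, fun i hi => ?_⟩
        have hne : ∀ i : Fin n, i.1 < k → Function.update y l z i = y i := fun i hi =>
          Function.update_of_ne (fun h => by
            have : i.1 = k := congrArg Fin.val h
            omega) _ _
        have hl : ∀ i : Fin n, i.1 < k + 1 → i.1 < k ∨ i = l := by
          intro i hi
          rcases Nat.lt_succ_iff_lt_or_eq.1 hi with h | h
          · exact Or.inl h
          · exact Or.inr (Fin.ext h)
        rcases hl i hi with h3 | rfl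
        · rw [hne i h3]
          refine ⟨(hy i h3).1, fun j hj => ?_⟩
          rcases hl j hj with h4 | rfl
          · rw [hne j h4]
            exact (hy i h3).2 j h4
          · rw [Function.update_self]
            have h5 := h2 i h3
            refine ⟨⟨fun h6 => ?_, fun h6 => ?_⟩, ⟨fun h6 => ?_, fun h6 => ?_⟩⟩
            · exact (h5.1.1 h6.symm).mono fun x hx => hx.symm
            · exact (h5.1.2 (h6.mono fun x hx => hx.symm)).symm
            · exact (h5.2.1 (hK.symm _ _ h6)).mono fun x hx => hK.symm _ _ hx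
            · exact hK.symm _ _ (h5.2.2 (h6.mono fun x hx => hK.symm _ _ hx))
        · rw [Function.update_self]
          refine ⟨h1, fun j hj => ?_⟩
          rcases hl j hj with h4 | rfl
          · rw [hne j h4]
            exact h2 j h4
          · rw [Function.update_self]
            refine ⟨⟨fun _ => Eventually.of_forall fun _ => rfl, fun _ => rfl⟩,
              ⟨fun h6 => absurd h6 (hK.irr _), fun h6 => ?_⟩⟩
            obtain ⟨x, hx⟩ := h6.exists
            exact absurd hx (hK.irr _)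
      -- three cases
      by_cases c1 : ∃ a ∈ A, ∀ᶠ x in (W : Filter (Fin n → K)), x l = a
      · obtain ⟨a, ha, hla⟩ := c1
        refine ⟨a, fun a' ha' => ⟨⟨fun h => ?_, fun h => ?_⟩, ⟨fun h => ?_, fun h => ?_⟩⟩,
          fun j hj => ?_⟩
        · rw [← h]
          exact hla
        · obtain ⟨x, h1, h2⟩ := (hla.and h).exists
          exact h1.symm.trans h2
        · filter_upwards [hla] with x hx
          rw [hx]
          exact h
        · obtain ⟨x, h1, h2⟩ := (hla.and h).exists
          rw [h1] at h2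
          exact h2
        · obtain ⟨h1, h2⟩ := (hy j hj).1 a ha
          refine ⟨⟨fun h => ?_, fun h => ?_⟩, ⟨fun h => ?_, fun h => ?_⟩⟩
          · filter_upwards [hla, h1.1 h.symm] with x h3 h4
            rw [h3, h4]
          · exact (h1.2 (by
              filter_upwards [hla, h] with x h3 h4
              rw [← h4, h3])).symm
          · filter_upwards [hla, h2.1 (hK.symm _ _ h)] with x h3 h4
            rw [h3]
            exact hK.symm _ _ h4
          · exact hK.symm _ _ (h2.2 (by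
              filter_upwards [hla, h] with x h3 h4
              rw [h3] at h4
              exact hK.symm _ _ h4))
      by_cases c2 : ∃ j : Fin n, j.1 < k ∧ ∀ᶠ x in (W : Filter (Fin n → K)), x l = x j
      · obtain ⟨j₀, hj₀, hlj⟩ := c2
        have hyj := hy j₀ hj₀
        refine ⟨y j₀, fun a ha => ⟨⟨fun h => ?_, fun h => ?_⟩, ⟨fun h => ?_, fun h => ?_⟩⟩,
          fun j hj => ⟨⟨fun h => ?_, fun h => ?_⟩, ⟨fun h => ?_, fun h => ?_⟩⟩⟩
        · filter_upwards [hlj, (hyj.1 a ha).1.1 h] with x h3 h4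
          rw [h3, h4]
        · exact (hyj.1 a ha).1.2 (by
            filter_upwards [hlj, h] with x h3 h4
            rw [← h3, h4])
        · filter_upwards [hlj, (hyj.1 a ha).2.1 h] with x h3 h4
          rw [h3]
          exact h4
        · exact (hyj.1 a ha).2.2 (by
            filter_upwards [hlj, h] with x h3 h4
            rw [← h3]
            exact h4)
        · filter_upwards [hlj, (hyj.2 j hj).1.1 h] with x h3 h4
          rw [h3, h4]
        · exact (hyj.2 j hj).1.2 (by
            filter_upwards [hlj, h] with x h3 h4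
            rw [← h3, h4])
        · filter_upwards [hlj, (hyj.2 j hj).2.1 h] with x h3 h4
          rw [h3]
          exact h4
        · exact (hyj.2 j hj).2.2 (by
            filter_upwards [hlj, h] with x h3 h4
            rw [← h3]
            exact h4)
      · let F : Set K := y '' {j | j.1 < k}
        have hF : #(A ∪ F : Set K) < lam := by
          refine (mk_union_le A F).trans_lt (add_lt_of_lt hlam hA ?_)
          exact lt_of_lt_of_le (lt_aleph0_iff_set_finite.2 ((Set.toFinite _).image y)) hlam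
        obtain ⟨z, hz⟩ := hext (A ∪ F) hF fun b =>
          (b ∈ A ∧ ∀ᶠ x in (W : Filter (Fin n → K)), RR (x l) b) ∨
          ∃ j : Fin n, j.1 < k ∧ y j = b ∧ ∀ᶠ x in (W : Filter (Fin n → K)), RR (x l) (x j)
        refine ⟨z, fun a ha => ?_, fun j hj => ?_⟩
        · have h1 := hz a (Or.inl ha)
          refine ⟨⟨fun h => absurd h h1.1, fun h => absurd ⟨a, ha, h⟩ c1⟩, ?_⟩
          rw [h1.2]
          constructor
          · rintro (h | ⟨j, hj, h2, h3⟩)
            · exact h.2
            · filter_upwards [((hy j hj).1 a ha).1.1 h2, h3] with x h4 h5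
              rw [← h4]
              exact h5
          · intro h
            exact Or.inl ⟨ha, h⟩
        · have h1 := hz (y j) (Or.inr ⟨j, hj, rfl⟩)
          refine ⟨⟨fun h => absurd h h1.1, fun h => absurd ⟨j, hj, h⟩ c2⟩, ?_⟩
          rw [h1.2]
          constructor
          · rintro (h | ⟨j', hj', h2, h3⟩)
            · filter_upwards [((hy j hj).1 _ h.1).1.1 rfl, h.2] with x h4 h5
              rw [h4]
              exact h5
            · filter_upwards [((hy j' hj').2 j hj).1.1 h2, h3] with x h4 h5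
              rw [← h4]
              exact h5
          · intro h
            exact Or.inr ⟨j, hj, rfl, h⟩
  obtain ⟨y, hy⟩ := key n le_rfl
  refine ⟨y, fun φ hφ => ?_⟩
  obtain ⟨m, φ0, c, hc⟩ := exists_nf φ
  rw [hc]
  -- a tuple with the same quantifier-free type
  have h1 : ∀ᶠ x in (W : Filter (Fin n → K)), ∀ i : Fin n,
      (∀ s : Fin m, ((y i = (c s).1 ↔ x i = (c s).1) ∧ (RR (y i) (c s).1 ↔ RR (x i) (c s).1))) ∧
      ∀ j : Fin n, ((y i = y j ↔ x i = x j) ∧ (RR (y i) (y j) ↔ RR (x i) (x j))) := by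
    have hdec : ∀ (P : Prop) (Q : (Fin n → K) → Prop),
        (P ↔ ∀ᶠ x in (W : Filter (Fin n → K)), Q x) →
        ∀ᶠ x in (W : Filter (Fin n → K)), (P ↔ Q x) := by
      intro P Q h
      by_cases hP : P
      · exact (h.1 hP).mono fun x hx => ⟨fun _ => hx, fun _ => hP⟩
      · have h2 := Ultrafilter.eventually_not.2 (fun h' => hP (h.2 h'))
        exact h2.mono fun x hx => ⟨fun h => absurd h hP, fun h => absurd h hx⟩
    refine eventually_all.2 fun i => Eventually.and (eventually_all.2 fun s => Eventually.and ?_ ?_)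
      (eventually_all.2 fun j => Eventually.and ?_ ?_)
    · exact hdec _ _ ((hy i i.2).1 _ (c s).2).1
    · exact hdec _ _ ((hy i i.2).1 _ (c s).2).2
    · exact hdec _ _ ((hy i i.2).2 j j.2).1
    · exact hdec _ _ ((hy i i.2).2 j j.2).2
  obtain ⟨x, hx1, hx2⟩ := (h1.and (hWp φ hφ)).exists
  rw [hc] at hx2
  refine (sameR_realize hK hK φ0 _ (default : Fin 0 → K) _ (default : Fin 0 → K) ?_).1 hx2
  rintro ((s | i) | s') ((t | j) | t')
  · exact ⟨Iff.rfl, Iff.rfl⟩
  · have h2 := (hx1 j).1 s
    refine ⟨⟨fun h => (h2.1.2 h.symm).symm, fun h => (h2.1.1 h.symm).symm⟩,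
      ⟨fun h => ?_, fun h => ?_⟩⟩
    · exact hK.symm _ _ (h2.2.2 (hK.symm _ _ h))
    · exact hK.symm _ _ (h2.2.1 (hK.symm _ _ h))
  · exact t'.elim0
  · have h2 := (hx1 i).1 t
    exact ⟨h2.1.symm, h2.2.symm⟩
  · have h2 := (hx1 i).2 j
    exact ⟨h2.1.symm, h2.2.symm⟩
  · exact t'.elim0
  · exact s'.elim0
  · exact s'.elim0
  · exact s'.elim0

end R

end Pool.Agent.Helper69.Io
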