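import Pool.Agent.Helper69.Io.Hull
import Pool.Agent.Helper69.Io.QE

/-!
# Models with a saturated random graph and a non-saturated tree of equivalence relations
-/

set_option autoImplicit false

namespace Pool.Agent.Helper69.Io

open Filter FirstOrder FirstOrder.Language Cardinal
open Pool.Agent.R598.IO

/-- The interpreted structure is unique. -/
theorem defines_unique {L₀ L : FirstOrder.Language.{0, 0}} {φ : Tup L₀ L} {M : Type}
    [L.Structure M] {S S' : L₀.Structure (φ.Dom M)} (h : φ.Defines M S) (h' : φ.Defines M S') :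
    S = S' := by
  refine FirstOrder.Language.Structure.ext ?_ ?_
  · funext n f x
    exact (h.2 f x _).2 ((h'.2 f x _).1 rfl)
  · funext n R x
    exact propext ((h.1 R x).trans (h'.1 R x).symm)

section

variable {L : FirstOrder.Language.{0, 0}} (φ₀ : Tup LE L) (φ₁ : Tup LR L)

/-- The interpreted equivalence relations. -/
def EM (M : Type) [L.Structure M] (n : ℕ) (x y : M) : Prop :=
  φ₀.eq.Realize ![x, x] ∧ φ₀.eq.Realize ![y, y] ∧ (φ₀.rel (symE n)).Realize ![x, y]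

/-- The interpreted edge relation. -/
def RM (M : Type) [L.Structure M] (x y : M) : Prop := (φ₁.rel symR).Realize ![x, y]

variable {φ₀ φ₁}

theorem ee_iff {M : Type} [L.Structure M] {S₀ : LE.Structure (φ₀.Dom M)}
    (h : φ₀.Defines M S₀) (n : ℕ) (x y : φ₀.Dom M) : EE n x y ↔ EM φ₀ M n x.1 y.1 := by
  have h1 := h.1 (symE n) ![x, y]
  have h2 : (fun i => ((![x, y] : Fin 2 → φ₀.Dom M) i).1) = ![x.1, y.1] := by
    funext i
    fin_cases i <;> rfl
  rw [h2] at h1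
  exact h1.trans ⟨fun h => ⟨x.2, y.2, h⟩, fun h => h.2.2⟩

theorem rr_iff {M : Type} [L.Structure M] {S₁ : LR.Structure (φ₁.Dom M)}
    (h : φ₁.Defines M S₁) (x y : φ₁.Dom M) : RR x y ↔ RM φ₁ M x.1 y.1 := by
  have h1 := h.1 symR ![x, y]
  have h2 : (fun i => ((![x, y] : Fin 2 → φ₁.Dom M) i).1) = ![x.1, y.1] := by
    funext i
    fin_cases i <;> rfl
  rw [h2] at h1
  exact h1

/-- The structure that is used for the construction. -/
def mkBase {M : Type} [L.Structure M] {S₀ : LE.Structure (φ₀.Dom M)} (h₀ : φ₀.Defines M S₀)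
    (p₀ : EProp (φ₀.Dom M)) {S₁ : LR.Structure (φ₁.Dom M)} (h₁ : φ₁.Defines M S₁)
    (p₁ : RProp (φ₁.Dom M)) : Base M where
  E := EM φ₀ M
  P := fun x => φ₁.eq.Realize ![x, x]
  R := RM φ₁ M
  symm := fun n x y h => (ee_iff h₀ n ⟨y, h.2.1⟩ ⟨x, h.1⟩).1
    (p₀.symm n _ _ ((ee_iff h₀ n ⟨x, h.1⟩ ⟨y, h.2.1⟩).2 h))
  trans := fun n x y z h h' => (ee_iff h₀ n ⟨x, h.1⟩ ⟨z, h'.2.1⟩).1
    (p₀.trans n _ _ _ ((ee_iff h₀ n ⟨x, h.1⟩ ⟨y, h.2.1⟩).2 h)
      ((ee_iff h₀ n ⟨y, h.2.1⟩ ⟨z, h'.2.1⟩).2 h'))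
  root := by
    obtain ⟨x⟩ := p₀.ne
    exact ⟨x.1, (ee_iff h₀ 0 x x).1 (p₀.refl 0 x)⟩
  split := by
    classical
    intro n x hx C hC
    have hC' : {c : φ₀.Dom M | c.1 ∈ C}.Finite := hC.preimage Subtype.val_injective.injOn
    obtain ⟨k, c, -, hc⟩ := hC'.fin_param
    obtain ⟨y, h1, h2⟩ := p₀.split n k ⟨x, hx.1⟩ c
    refine ⟨y.1, (ee_iff h₀ n _ y).1 h1, (ee_iff h₀ _ y y).1 (p₀.refl _ y), fun b hb h3 => ?_⟩
    have h4 : (⟨b, h3.1⟩ : φ₀.Dom M) ∈ Set.range c := by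
      rw [hc]
      exact hb
    obtain ⟨i, hi⟩ := h4
    refine h2 i ?_
    rw [hi]
    exact (ee_iff h₀ _ _ y).2 h3
  ext := by
    intro I _ a e ha hinj
    obtain ⟨v, hv⟩ := p₁.ext' (fun i => (⟨a i, ha i⟩ : φ₁.Dom M)) fun b => ∃ i, a i = b.1 ∧ e i
    refine ⟨v.1, v.2, fun i => ⟨fun h => (hv i).1 (Subtype.ext h), ?_⟩⟩
    rw [← rr_iff h₁ v ⟨a i, ha i⟩, (hv i).2]
    constructor
    · rintro ⟨j, h2, h3⟩
      rwa [hinj h2] at h3
    · intro h2
      exact ⟨i, rfl, h2⟩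

end

/-- For each theory that interprets both theories and each infinite cardinal `lam` there is a model
with a `lam`-saturated random graph in which the tree of equivalence relations is not even
`ℵ₁`-saturated. -/
theorem exists_model {L : FirstOrder.Language.{0, 0}} (T : L.Theory) (hT : T.IsSatisfiable)
    (φ₀ : Tup LE L) (φ₁ : Tup LR L)
    (hint : ∀ (M : Type) [Nonempty M] [L.Structure M], M ⊨ T →
      ∃ (S₀ : LE.Structure (φ₀.Dom M)) (S₁ : LR.Structure (φ₁.Dom M)),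
        φ₀.Defines M S₀ ∧ φ₁.Defines M S₁ ∧ φ₀.Dom M ⊨ TE ∧ φ₁.Dom M ⊨ TR)
    (lam : Cardinal.{0}) (hlam : ℵ₀ ≤ lam) :
    ∃ (M : Type) (_ : Nonempty M) (_ : L.Structure M), M ⊨ T ∧
      ∀ (S₀ : LE.Structure (φ₀.Dom M)) (S₁ : LR.Structure (φ₁.Dom M)),
        φ₀.Defines M S₀ → φ₁.Defines M S₁ →
          IsSat lam LR (φ₁.Dom M) ∧ ¬ IsSat ℵ₁ LE (φ₀.Dom M) := by
  classical
  obtain ⟨M₀⟩ := hT
  obtain ⟨S₀, S₁, hS₀, hS₁, h₀, h₁⟩ := hint M₀ M₀.is_model
  have p₀ := eprop_of_model h₀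
  have p₁ := rprop_of_model h₁
  let B : Base M₀ := mkBase hS₀ p₀ hS₁ p₁
  let ι : Type := lam.out
  obtain ⟨F, hF⟩ := exists_full B ι
  have hFne := hF.nebot
  obtain ⟨U, hU⟩ : ∃ U : Ultrafilter (Nm M₀ ι → M₀), (U : Filter _) ≤ F := Ultrafilter.exists_le F
  have hUF : ∀ p : (Nm M₀ ι → M₀) → Prop, FS Set.univ p →
      ((∀ᶠ ω in (U : Filter _), p ω) ↔ ∀ᶠ ω in F, p ω) := by
    intro p hp
    refine ⟨fun h => ?_, fun h => hU h⟩
    rcases hF.dec p hp with h1 | h1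
    · exact h1
    · obtain ⟨ω, h2, h3⟩ := (h.and (hU h1)).exists
      exact absurd h2 h3
  have hN : hull L U ⊨ T := hull_model U M₀.is_model
  have hNne : Nonempty (hull L U) := hull_nonempty U
  obtain ⟨S₀', S₁', hS₀', hS₁', h₀', h₁'⟩ := hint (hull L U) hN
  have p₀' := eprop_of_model h₀'
  have p₁' := rprop_of_model h₁'
  -- the interpreted relations in the new model
  have hEM : ∀ n (X Y : (Nm M₀ ι → M₀) → M₀) (hX : FS Set.univ X) (hY : FS Set.univ Y),
      EM φ₀ (hull L U) n (cls L U X hX) (cls L U Y hY) ↔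
        ∀ᶠ ω in (U : Filter _), EM φ₀ M₀ n (X ω) (Y ω) := by
    intro n X Y hX hY
    unfold EM
    rw [realize_two, realize_two, realize_two, eventually_and, eventually_and]
  have hRM : ∀ (X Y : (Nm M₀ ι → M₀) → M₀) (hX : FS Set.univ X) (hY : FS Set.univ Y),
      RM φ₁ (hull L U) (cls L U X hX) (cls L U Y hY) ↔
        ∀ᶠ ω in (U : Filter _), RM φ₁ M₀ (X ω) (Y ω) := by
    intro X Y hX hY
    unfold RM
    rw [realize_two]
  have hco : ∀ c : Nm M₀ ι, FS Set.univ fun ω : Nm M₀ ι → M₀ => ω c := fun c =>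
    FS.coord (Set.mem_univ c)
  refine ⟨hull L U, hNne, inferInstance, hN, fun S₀ S₁ hS₀ hS₁ => ?_⟩
  obtain rfl := defines_unique hS₀ hS₀'
  obtain rfl := defines_unique hS₁ hS₁'
  constructor
  · refine isSat_of_ext p₁' hlam fun A hA e => ?_
    rcases A.eq_empty_or_nonempty with rfl | ⟨a₀, ha₀⟩
    · obtain ⟨x, -⟩ := p₁'.ext' (β := Empty) (fun i => i.elim) e
      exact ⟨x, fun a ha => absurd ha (Set.notMem_empty a)⟩
    have hAι : #A ≤ #ι := by
      rw [mk_out]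
      exact hA.le
    obtain ⟨f⟩ := Cardinal.le_def _ _ |>.1 hAι
    choose X hX hXa using fun a : A => exists_cls a.1.1
    let Y : ι → (Nm M₀ ι → M₀) → M₀ := fun i =>
      if h : ∃ a, f a = i then X h.choose else X ⟨a₀, ha₀⟩
    have hYf : ∀ a, Y (f a) = X a := by
      intro a
      have h1 : ∃ b, f b = f a := ⟨a, rfl⟩
      have h2 : Y (f a) = X h1.choose := dif_pos h1
      rw [h2, f.injective h1.choose_spec]
    have hYfs : ∀ i, FS Set.univ (Y i) := by
      intro i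
      by_cases h1 : ∃ a, f a = i
      · have h2 : Y i = X h1.choose := dif_pos h1
        rw [h2]
        exact hX _
      · have h2 : Y i = X ⟨a₀, ha₀⟩ := dif_neg h1
        rw [h2]
        exact hX _
    choose k x g hxg using fun i => (hYfs i).exists_val
    have hval : ∀ a ω, val x g (f a) ω = X a ω := by
      intro a ω
      rw [← hYf a]
      exact (hxg (f a) ω).symm
    let s : Set ι := Set.range f
    let e' : ι → Prop := fun i => ∃ a : A, f a = i ∧ e a.1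
    have he' : ∀ a : A, e' (f a) ↔ e a.1 := by
      intro a
      constructor
      · rintro ⟨b, h1, h2⟩
        rwa [f.injective h1] at h2
      · intro h1
        exact ⟨a, rfl, h1⟩
    let c : Nm M₀ ι := Nm.new s e' k x g
    have hreal := hF.real s e' k x g (Set.mem_univ _) (by
      rintro _ ⟨a, rfl⟩ _ ⟨b, rfl⟩ hab
      have h1 : a ≠ b := fun h => hab (by rw [h])
      have h2 : ¬ ∀ᶠ ω in (U : Filter _), X a ω = X b ω := by
        rw [← cls_eq (L := L) (hX := hX a) (hY := hX b), hXa, hXa]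
        exact fun h => h1 (Subtype.ext (Subtype.ext h))
      have h3 := Ultrafilter.eventually_not.2 h2
      have h4 := (hUF _ ((hX a).comp₂ (hX b) fun x y => ¬ x = y)).1 h3
      refine h4.mono fun ω h5 => ?_
      rw [hval, hval]
      exact h5) (by
      rintro _ ⟨a, rfl⟩
      have h2 : φ₁.eq.Realize ![a.1.1, a.1.1] := a.1.2
      rw [← hXa a, realize_two] at h2
      have h4 := (hUF _ ((hX a).comp fun x => φ₁.eq.Realize ![x, x])).1 h2
      refine h4.mono fun ω h5 => ?_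
      rw [hval]
      exact h5)
    have hreal' : ∀ a : A, ∀ᶠ ω in (U : Filter _), φ₁.eq.Realize ![ω c, ω c] ∧ ω c ≠ X a ω ∧
        (RM φ₁ M₀ (ω c) (X a ω) ↔ e a.1) := by
      intro a
      refine hU ((hreal (f a) ⟨a, rfl⟩).mono fun ω h1 => ?_)
      rw [hval, he'] at h1
      exact h1
    let v : hull L U := cls L U (fun ω => ω c) (hco c)
    have hv : φ₁.eq.Realize ![v, v] :=
      realize_two (hX := hco c) (hY := hco c) φ₁.eq |>.2
        ((hreal' ⟨a₀, ha₀⟩).mono fun ω h1 => h1.1)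
    refine ⟨⟨v, hv⟩, fun a ha => ⟨fun h1 => ?_, ?_⟩⟩
    · have h2 : v = a.1 := congrArg Subtype.val h1
      have h3 : cls L U (fun ω => ω c) (hco c) = cls L U (X ⟨a, ha⟩) (hX _) := by
        rw [hXa]
        exact h2
      rw [cls_eq] at h3
      obtain ⟨ω, h4, h5⟩ := (h3.and (hreal' ⟨a, ha⟩)).exists
      exact h5.2.1 h4
    · rw [rr_iff hS₁]
      have h2 : RM φ₁ (hull L U) v a.1 ↔ RM φ₁ (hull L U) (cls L U (fun ω => ω c) (hco c))
          (cls L U (X ⟨a, ha⟩) (hX _)) := by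
        rw [hXa]
      rw [h2, hRM]
      constructor
      · intro h3
        obtain ⟨ω, h4, h5⟩ := (h3.and (hreal' ⟨a, ha⟩)).exists
        exact h5.2.2.1 h4
      · intro h3
        exact (hreal' ⟨a, ha⟩).mono fun ω h4 => h4.2.2.2 h3
  · intro hsat
    have hchain : ∀ n, EM φ₀ (hull L U) n (cls L U _ (hco (.t n))) (cls L U _ (hco (.t (n + 1)))) :=
      fun n => (hEM n _ _ _ _).2 (hU (hF.chain n))
    let τ : ℕ → φ₀.Dom (hull L U) := fun n => ⟨cls L U _ (hco (.t n)), (hchain n).1⟩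
    have hτ : ∀ n, EE n (τ n) (τ (n + 1)) := fun n => (ee_iff hS₀ n _ _).2 (hchain n)
    have hτ' : ∀ n m, n ≤ m → EE n (τ m) (τ n) := by
      intro n m hnm
      induction m, hnm using Nat.le_induction with
      | base => exact p₀'.refl _ _
      | succ m hm ih =>
        exact p₀'.trans _ _ _ _ (p₀'.symm _ _ _ (p₀'.mono hm (hτ m))) ih
    obtain ⟨x, hx⟩ := hsat.real (n := 1) (I := ℕ) (β := fun _ => Unit)
      (R := fun i (M : Type) [LE.Structure M] w => EE i (w (Sum.inr 0)) (w (Sum.inl ())))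
      (fun i => ud_ee i _ _) (fun i _ => τ i) (Set.range τ) (by
        rw [← succ_aleph0, Order.lt_succ_iff]
        exact mk_range_le.trans (by rw [mk_nat])) (fun i _ => ⟨i, rfl⟩) (by
        intro G hG
        obtain ⟨m, hm⟩ := hG.bddAbove
        exact ⟨fun _ => τ m, fun i hi => hτ' i m (hm hi)⟩)
    have hx' : ∀ i, EE i (x 0) (τ i) := hx
    obtain ⟨X, hX, hXx⟩ := exists_cls (x 0).1
    have hX' := hX
    obtain ⟨G, hG, -, hGX⟩ := hX'
    obtain ⟨m, hm⟩ := (hG.image lev).bddAbove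
    have h1 : FS (Set.univ ∩ {c | lev c ≤ m}) X :=
      ⟨G, hG, fun c hc => ⟨Set.mem_univ c, hm ⟨c, hc, rfl⟩⟩, hGX⟩
    have h2 := hF.good m X h1
    have h3 := (ee_iff hS₀ (m + 1) _ _).1 (hx' (m + 1))
    rw [← hXx] at h3
    have h4 := (hEM (m + 1) X _ hX (hco (.t (m + 1)))).1 h3
    obtain ⟨ω, h5, h6⟩ := (h4.and (hU h2)).exists
    exact h6 h5

end Pool.Agent.Helper69.Io
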