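import Pool.Graph.R_pool_sql_team_seeded_b0a926ef.R598.IO.Sat

/-!
# The two theories

* `TE` is the complete theory of the set of all functions from `ℕ` to `ℕ` with the equivalence
  relations `x ↾ n = y ↾ n`: the theory of refining equivalence relations with infinite splitting.
* `TR` is the complete theory of the random graph, given as the graph on `ℕ` with an edge from `x`
  to `y` if the bit `x` of `y` or the bit `y` of `x` is one.
-/

set_option autoImplicit false

namespace Pool.Agent.Helper69.Io

open Filter FirstOrder FirstOrder.Language Cardinal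
open Pool.Agent.R598.IO

/-- The symbols for the equivalence relations. -/
inductive ERel : ℕ → Type
  | E : ℕ → ERel 2

/-- The vocabulary with a binary relation symbol for each natural number. -/
def LE : FirstOrder.Language.{0, 0} := ⟨fun _ => Empty, ERel⟩

/-- The symbol for the edge relation. -/
inductive RRel : ℕ → Type
  | R : RRel 2

/-- The vocabulary with one binary relation symbol. -/
def LR : FirstOrder.Language.{0, 0} := ⟨fun _ => Empty, RRel⟩

/-- The functions from `ℕ` to `ℕ`. -/
def Seq : Type := ℕ → ℕ

instance : Nonempty Seq := ⟨fun _ => 0⟩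

/-- The equivalence relation with number `n` is agreement below `n`. -/
instance : LE.Structure Seq where
  funMap := fun f _ => Empty.elim f
  RelMap := fun r => match r with
    | .E n => fun x => ∀ i < n, x 0 i = x 1 i

/-- The graph on `ℕ` given by the bits. -/
instance radoStr : LR.Structure ℕ where
  funMap := fun f _ => Empty.elim f
  RelMap := fun r => match r with
    | .R => fun x => (x 0).testBit (x 1) = true ∨ (x 1).testBit (x 0) = true

/-- The theory of refining equivalence relations with infinite splitting. -/
def TE : LE.Theory := LE.completeTheory Seq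

/-- The theory of the random graph. -/
def TR : LR.Theory := LR.completeTheory ℕ

theorem te_complete : TE.IsComplete := completeTheory.isComplete LE Seq

theorem tr_complete : TR.IsComplete := completeTheory.isComplete LR ℕ

theorem card_le : LE.card ≤ ℵ₀ := by
  unfold FirstOrder.Language.card FirstOrder.Language.Symbols
  rw [mk_le_aleph0_iff]
  have h1 : Countable (Σ l, LE.Functions l) := by
    have : IsEmpty (Σ l, LE.Functions l) := ⟨fun x => Empty.elim x.2⟩
    infer_instance
  have h2 : Countable (Σ l, LE.Relations l) := by
    have h3 : Function.Injective (fun x : (Σ l, LE.Relations l) => match x with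
      | ⟨_, .E n⟩ => n) := by
      rintro ⟨_, ⟨n⟩⟩ ⟨_, ⟨m⟩⟩ h
      have h4 : n = m := h
      rw [h4]
    exact h3.countable
  infer_instance

theorem card_lr : LR.card ≤ ℵ₀ := by
  unfold FirstOrder.Language.card FirstOrder.Language.Symbols
  rw [mk_le_aleph0_iff]
  have h1 : Countable (Σ l, LR.Functions l) := by
    have : IsEmpty (Σ l, LR.Functions l) := ⟨fun x => Empty.elim x.2⟩
    infer_instance
  have h2 : Countable (Σ l, LR.Relations l) := by
    have h3 : Function.Injective (fun _ : (Σ l, LR.Relations l) => ()) := by
      rintro ⟨_, ⟨⟩⟩ ⟨_, ⟨⟩⟩ h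
      rfl
    exact h3.countable
  infer_instance

/-- The symbol for the equivalence relation with number `n`. -/
def symE (n : ℕ) : LE.Relations 2 := ERel.E n

/-- The symbol for the edge relation. -/
def symR : LR.Relations 2 := RRel.R

/-- The equivalence relation. -/
def EE {K : Type} [LE.Structure K] (n : ℕ) (x y : K) : Prop :=
  Structure.RelMap (symE n) ![x, y]

/-- The edge relation. -/
def RR {K : Type} [LR.Structure K] (x y : K) : Prop :=
  Structure.RelMap symR ![x, y]

theorem ud_ee {α : Type} (n : ℕ) (a b : α) :
    UD LE fun (M : Type) [LE.Structure M] (v : α → M) => EE n (v a) (v b) := by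
  refine (UD.rel (symE n) ![a, b]).congr fun M _ v => ?_
  have h : (fun i => v (![a, b] i)) = ![v a, v b] := by
    funext i
    fin_cases i <;> rfl
  rw [h]
  rfl

theorem ud_rr {α : Type} (a b : α) :
    UD LR fun (M : Type) [LR.Structure M] (v : α → M) => RR (v a) (v b) := by
  refine (UD.rel symR ![a, b]).congr fun M _ v => ?_
  have h : (fun i => v (![a, b] i)) = ![v a, v b] := by
    funext i
    fin_cases i <;> rfl
  rw [h]
  rfl

/-- The properties of the models of the theory of refining equivalence relations. -/
structure EProp (K : Type) [LE.Structure K] : Prop where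
  ne : Nonempty K
  refl : ∀ n (x : K), EE n x x
  symm : ∀ n (x y : K), EE n x y → EE n y x
  trans : ∀ n (x y z : K), EE n x y → EE n y z → EE n x z
  zero : ∀ x y : K, EE 0 x y
  succ : ∀ n (x y : K), EE (n + 1) x y → EE n x y
  split : ∀ n k (x : K) (c : Fin k → K), ∃ y, EE n x y ∧ ∀ i, ¬ EE (n + 1) (c i) y

theorem ee_seq (n : ℕ) (x y : Seq) : EE n x y ↔ ∀ i < n, x i = y i := Iff.rfl

theorem eprop_seq : EProp Seq where
  ne := inferInstance
  refl := fun n x => (ee_seq n x x).2 fun _ _ => rfl
  symm := fun n x y h => (ee_seq n y x).2 fun i hi => ((ee_seq n x y).1 h i hi).symm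
  trans := fun n x y z h h' => (ee_seq n x z).2 fun i hi =>
    ((ee_seq n x y).1 h i hi).trans ((ee_seq n y z).1 h' i hi)
  zero := fun x y => (ee_seq 0 x y).2 fun i hi => absurd hi (Nat.not_lt_zero i)
  succ := fun n x y h => (ee_seq n x y).2 fun i hi => (ee_seq (n + 1) x y).1 h i (by omega)
  split := by
    intro n k x c
    obtain ⟨m, hm⟩ := (Set.finite_range fun i => c i n).bddAbove
    refine ⟨(fun i => if i < n then x i else m + 1 : ℕ → ℕ), ?_, fun i h => ?_⟩
    · refine (ee_seq n x _).2 fun i hi => ?_
      exact (if_pos hi).symm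
    · have h1 := (ee_seq (n + 1) _ _).1 h n (Nat.lt_succ_self n)
      have h2 : c i n ≤ m := hm ⟨i, rfl⟩
      have h3 : (if n < n then x n else m + 1) = m + 1 := if_neg (lt_irrefl n)
      have h4 : c i n = m + 1 := h1.trans h3
      omega

theorem eprop_of_model {K : Type} [LE.Structure K] (h : K ⊨ TE) : EProp K := by
  have h0 : K ⊨ LE.completeTheory Seq := h
  have hS := eprop_seq
  constructor
  · have h1 := UD.transfer (R := fun (M : Type) [LE.Structure M] (_ : Empty → M) =>
      ∃ x : M, EE 0 x x) (UD.ex (ud_ee _ _ _)) h0 (by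
        obtain ⟨x⟩ := hS.ne
        exact ⟨x, hS.zero x x⟩)
    exact ⟨h1.choose⟩
  · intro n
    exact UD.transfer (R := fun (M : Type) [LE.Structure M] (_ : Empty → M) =>
      ∀ x : M, EE n x x) (UD.all (ud_ee _ _ _)) h0 (hS.refl n)
  · intro n
    exact UD.transfer (R := fun (M : Type) [LE.Structure M] (_ : Empty → M) =>
      ∀ x y : M, EE n x y → EE n y x) (by
        repeat' first
          | exact ud_ee _ _ _ | apply UD.imp | apply UD.all) h0 (hS.symm n)
  · intro n
    exact UD.transfer (R := fun (M : Type) [LE.Structure M] (_ : Empty → M) =>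
      ∀ x y z : M, EE n x y → EE n y z → EE n x z) (by
        repeat' first
          | exact ud_ee _ _ _ | apply UD.imp | apply UD.all) h0 (hS.trans n)
  · exact UD.transfer (R := fun (M : Type) [LE.Structure M] (_ : Empty → M) =>
      ∀ x y : M, EE 0 x y) (by
        repeat' first
          | exact ud_ee _ _ _ | apply UD.imp | apply UD.all) h0 hS.zero
  · intro n
    exact UD.transfer (R := fun (M : Type) [LE.Structure M] (_ : Empty → M) =>
      ∀ x y : M, EE (n + 1) x y → EE n x y) (by
        repeat' first
          | exact ud_ee _ _ _ | apply UD.imp | apply UD.all) h0 (hS.succ n)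
  · intro n k
    exact UD.transfer (R := fun (M : Type) [LE.Structure M] (_ : Empty → M) =>
      ∀ (x : M) (c : Fin k → M), ∃ y, EE n x y ∧ ∀ i, ¬ EE (n + 1) (c i) y) (by
        repeat' first
          | exact ud_ee _ _ _ | exact UD.fls | apply UD.imp | apply UD.all | apply UD.allT
          | apply UD.ex | apply UD.and | apply UD.not | apply UD.iall | intro _) h0 (hS.split n k)

/-- The properties of the models of the theory of the random graph. -/
structure RProp (K : Type) [LR.Structure K] : Prop where
  irr : ∀ x : K, ¬ RR x x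
  symm : ∀ x y : K, RR x y → RR y x
  ext : ∀ (k : ℕ) (e : Fin k → Prop) (a : Fin k → K), (∀ i j, ¬ i = j → ¬ a i = a j) →
    ∃ v, ∀ i, ¬ v = a i ∧ (RR v (a i) ↔ e i)

theorem rr_nat (x y : ℕ) : RR x y ↔ x.testBit y = true ∨ y.testBit x = true := Iff.rfl

theorem testBit_self (x : ℕ) : x.testBit x = false :=
  Nat.testBit_eq_false_of_lt Nat.lt_two_pow_self

theorem exists_bits (s : Finset ℕ) : ∃ n : ℕ, ∀ i, n.testBit i = decide (i ∈ s) := by
  classical
  induction s using Finset.induction_on with
  | empty => exact ⟨0, fun i => by simp⟩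
  | insert a s _ ih =>
    obtain ⟨n, hn⟩ := ih
    refine ⟨n ||| 2 ^ a, fun i => ?_⟩
    rw [Nat.testBit_or, hn, Nat.testBit_two_pow]
    by_cases h1 : a = i
    · subst h1
      simp
    · have h2 : ¬ i = a := fun h => h1 h.symm
      simp [h1, h2]

theorem rprop_nat : RProp ℕ where
  irr := by
    intro x h
    rcases (rr_nat x x).1 h with h | h <;> rw [testBit_self] at h <;> exact absurd h (by simp)
  symm := fun x y h => (rr_nat y x).2 ((rr_nat x y).1 h).symm
  ext := by
    classical
    intro k e a ha
    obtain ⟨m, hm⟩ := (Set.finite_range a).bddAbove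
    obtain ⟨v, hv⟩ := exists_bits (insert (m + 1) ((Finset.univ.filter e).image a))
    have h1 : m + 1 < v := by
      have h2 : v.testBit (m + 1) = true := by
        rw [hv]
        simp
      by_contra h3
      have h4 : v < 2 ^ (m + 1) := lt_of_le_of_lt (not_lt.1 h3) Nat.lt_two_pow_self
      rw [Nat.testBit_eq_false_of_lt h4] at h2
      exact absurd h2 (by simp)
    refine ⟨v, fun i => ?_⟩
    have h2 : a i ≤ m := hm ⟨i, rfl⟩
    refine ⟨by omega, ?_⟩
    rw [rr_nat]
    have h3 : (a i).testBit v = false :=
      Nat.testBit_eq_false_of_lt (lt_of_lt_of_le (show a i < v by omega)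
        (Nat.lt_two_pow_self (n := v)).le)
    rw [h3, hv]
    simp only [Finset.mem_insert, Finset.mem_image, Finset.mem_filter, Finset.mem_univ, true_and,
      decide_eq_true_eq, Bool.false_eq_true, or_false]
    constructor
    · rintro (h4 | ⟨j, h4, h5⟩)
      · omega
      · by_cases hij : j = i
        · rwa [hij] at h4
        · exact absurd h5 (ha j i hij)
    · intro h4
      exact Or.inr ⟨i, h4, rfl⟩

theorem rprop_of_model {K : Type} [LR.Structure K] (h : K ⊨ TR) : RProp K := by
  have h0 : K ⊨ LR.completeTheory ℕ := h
  have hS := rprop_nat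
  constructor
  · exact UD.transfer (R := fun (M : Type) [LR.Structure M] (_ : Empty → M) =>
      ∀ x : M, ¬ RR x x) (UD.all (UD.not (ud_rr _ _))) h0 hS.irr
  · exact UD.transfer (R := fun (M : Type) [LR.Structure M] (_ : Empty → M) =>
      ∀ x y : M, RR x y → RR y x) (by
        repeat' first
          | exact ud_rr _ _ | apply UD.imp | apply UD.all) h0 hS.symm
  · intro k e
    have hc : ∀ (p : Prop) {α : Type}, UD LR fun (M : Type) [LR.Structure M] (_ : α → M) => p := by
      intro p α
      by_cases hp : p
      · exact ⟨⊤, fun M _ v => by simp [hp]⟩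
      · exact ⟨⊥, fun M _ v => by simp [hp]⟩
    exact UD.transfer (R := fun (M : Type) [LR.Structure M] (_ : Empty → M) =>
      ∀ (a : Fin k → M), (∀ i j, ¬ i = j → ¬ a i = a j) →
        ∃ v, ∀ i, ¬ v = a i ∧ (RR v (a i) ↔ e i)) (by
        repeat' first
          | exact ud_rr _ _ | exact UD.eq _ _ | exact hc _ | apply UD.imp | apply UD.all
          | apply UD.allT
          | apply UD.ex | apply UD.and | apply UD.iff | apply UD.not | apply UD.iall | intro _) h0
          (hS.ext k e)

/-- The theory of the random graph is unstable. -/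
theorem tr_unstable : Unstable TR := by
  classical
  let a : ℕ → ℕ := fun i => 2 ^ (2 * i + 1)
  choose b hb using fun j : ℕ => exists_bits ((Finset.range j).image a)
  have ha : Function.Injective a := by
    intro i j h
    have h1 : 2 * i + 1 = 2 * j + 1 := Nat.pow_right_injective le_rfl h
    omega
  have hm : ℕ ⊨ TR := (inferInstance : ℕ ⊨ LR.completeTheory ℕ)
  refine ⟨1, 1, symR.formula₂ (Term.var (Sum.inl 0)) (Term.var (Sum.inr 0)), Theory.ModelType.of TR ℕ, fun i _ => a i, fun j _ => b j,
    fun i j => ?_⟩
  · rw [Formula.realize_rel₂]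
    change RR (a i) (b j) ↔ i < j
    rw [rr_nat, hb]
    have h1 : (a i).testBit (b j) = false := by
      have h2 : (b j).testBit 0 = false := by
        rw [hb]
        simp [a]
      change (2 ^ (2 * i + 1)).testBit (b j) = false
      rw [Nat.testBit_two_pow]
      rw [decide_eq_false_iff_not]
      intro h3
      rw [← h3, Nat.testBit_zero] at h2
      simp at h2
    rw [h1]
    simp only [Finset.mem_image, Finset.mem_range, decide_eq_true_eq, Bool.false_eq_true, false_or]
    constructor
    · rintro ⟨k, h2, h3⟩
      rwa [ha h3] at h2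
    · intro h2
      exact ⟨i, h2, rfl⟩

end Pool.Agent.Helper69.Io
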