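import Pool.Agent.Helper69.Io.Comb

/-!
# The filter that decides all finitely supported events
-/

set_option autoImplicit false

namespace Pool.Agent.Helper69.Io

open Filter

variable {M ι : Type} {B : Base M}

/-- The finitely supported members of a filter generate a filter. -/
def FS.filter {N M : Type} (D : Set N) (U : Filter (N → M)) : Filter (N → M) where
  sets := {S | ∃ S' ∈ U, S' ⊆ S ∧ FS D (· ∈ S')}
  univ_sets := ⟨Set.univ, univ_mem, subset_rfl, by simpa using FS.const (S := D) (M := M) True⟩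
  sets_of_superset := by
    rintro S T ⟨S', h1, h2, h3⟩ hST
    exact ⟨S', h1, h2.trans hST, h3⟩
  inter_sets := by
    rintro S T ⟨S', h1, h2, h3⟩ ⟨T', h4, h5, h6⟩
    exact ⟨S' ∩ T', inter_mem h1 h4, Set.inter_subset_inter h2 h5, h3.comp₂ h6 And⟩

theorem FS.mem_filter {N M : Type} {D : Set N} {U : Filter (N → M)} {S : Set (N → M)} :
    S ∈ FS.filter D U ↔ ∃ S' ∈ U, S' ⊆ S ∧ FS D (· ∈ S') := Iff.rfl

theorem FS.filter_le {N M : Type} {D : Set N} {U : Filter (N → M)} :
    U ≤ FS.filter D U := by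
  rintro S ⟨S', h1, h2, -⟩
  exact mem_of_superset h1 h2

theorem FS.eventually_filter {N M : Type} {D : Set N} {U : Filter (N → M)} {p : (N → M) → Prop}
    (hp : FS D p) : (∀ᶠ ω in FS.filter D U, p ω) ↔ ∀ᶠ ω in U, p ω :=
  ⟨fun h => FS.filter_le h, fun h => ⟨{ω | p ω}, h, subset_rfl, hp⟩⟩

theorem neBot_of_fip {α : Type} (S : Set (Set α))
    (h : ∀ T ⊆ S, T.Finite → (⋂₀ T).Nonempty) : (generate S).NeBot :=
  generate_neBot_iff.2 h

/-- A filter for the names `t n`. -/
theorem exists_stage (B : Base M) (ι : Type) :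
    ∃ (D : Set (Nm M ι)) (F : Filter (Nm M ι → M)), Stage B D F := by
  classical
  let D : Set (Nm M ι) := Set.range Nm.t
  let 𝒮 : Set (Set (Nm M ι → M)) := {S | ∃ n, S = {ω | B.E n (ω (.t n)) (ω (.t (n + 1)))}} ∪
    {S | ∃ n, ∃ X : (Nm M ι → M) → M, FS (D ∩ {x | lev x ≤ n}) X ∧
      S = {ω | ¬ B.E (n + 1) (X ω) (ω (.t (n + 1)))}}
  have h𝒮 : (generate 𝒮).NeBot := by
    refine neBot_of_fip _ fun T hT hfin => ?_
    -- the finitely many functions
    have hX : ∀ S : T, ∃ (n : ℕ) (X : Option ((Nm M ι → M) → M)),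
        (∀ Y ∈ X, FS (D ∩ {x | lev x ≤ n}) Y) ∧ ∀ ω : Nm M ι → M,
        B.E n (ω (.t n)) (ω (.t (n + 1))) →
        (∀ Y ∈ X, ¬ B.E (n + 1) (Y ω) (ω (.t (n + 1)))) → ω ∈ S.1 := by
      rintro ⟨S, hS⟩
      rcases hT hS with ⟨n, rfl⟩ | ⟨n, X, hX, rfl⟩
      · exact ⟨n, none, by simp, fun ω h _ => h⟩
      · exact ⟨n, some X, by simpa using hX, fun ω _ h => h X rfl⟩
    choose n X hXs hXm using hX
    have hTf : Finite T := hfin
    have key : ∀ m : ℕ, ∃ ω : Nm M ι → M, B.E m (ω (.t m)) (ω (.t m)) ∧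
        (∀ k < m, B.E k (ω (.t k)) (ω (.t (k + 1)))) ∧
        ∀ S : T, n S < m → ∀ Y ∈ X S, ¬ B.E (n S + 1) (Y ω) (ω (.t (n S + 1))) := by
      intro m
      induction m with
      | zero =>
        obtain ⟨x, hx⟩ := B.root
        exact ⟨fun _ => x, hx, fun k hk => absurd hk (Nat.not_lt_zero _),
          fun S hS => absurd hS (Nat.not_lt_zero _)⟩
      | succ m ih =>
        obtain ⟨ω, h1, h2, h3⟩ := ih
        obtain ⟨y, h4, h5, h6⟩ := B.split m _ h1 {c | ∃ S : T, ∃ Y ∈ X S, c = Y ω} (by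
          have : {c | ∃ S : T, ∃ Y ∈ X S, c = Y ω} ⊆
              ⋃ S : T, {c | ∃ Y ∈ X S, c = Y ω} := by
            rintro c ⟨S, Y, hY, rfl⟩
            exact Set.mem_iUnion.2 ⟨S, Y, hY, rfl⟩
          refine (Set.finite_iUnion fun S => ?_).subset this
          cases hXS : X S with
          | none => simp
          | some Y => 
            refine (Set.finite_singleton (Y ω)).subset ?_
            rintro c ⟨Y', hY', rfl⟩
            rw [Option.mem_def, Option.some.injEq] at hY'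
            rw [hY']
            rfl)
        let ω' : Nm M ι → M := Function.update ω (.t (m + 1)) y
        have hω : ∀ k ≤ m, ω' (.t k) = ω (.t k) := by
          intro k hk
          exact Function.update_of_ne (by
            intro h
            have := Nm.t.inj h
            omega) _ _
        have hω' : ω' (.t (m + 1)) = y := Function.update_self _ _ _
        have hFS : ∀ k ≤ m, ∀ Y : (Nm M ι → M) → M, FS (D ∩ {x | lev x ≤ k}) Y → Y ω' = Y ω := by
          rintro k hk Y ⟨F, -, hF, hY⟩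
          refine hY _ _ fun x hx => ?_
          obtain ⟨⟨l, rfl⟩, hl⟩ := hF hx
          exact hω l (le_trans hl hk)
        refine ⟨ω', by rw [hω']; exact h5, fun k hk => ?_, fun S hS Y hY => ?_⟩
        · rcases Nat.lt_succ_iff_lt_or_eq.1 hk with h7 | rfl
          · rw [hω k h7.le, hω (k + 1) h7]
            exact h2 k h7
          · rw [hω k le_rfl, hω']
            exact h4
        · rcases Nat.lt_succ_iff_lt_or_eq.1 hS with h7 | h7
          · rw [hFS (n S) h7.le Y (hXs S Y hY), hω (n S + 1) h7]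
            exact h3 S h7 Y hY
          · rw [hFS (n S) h7.le Y (hXs S Y hY), h7, hω']
            exact h6 _ ⟨S, Y, hY, rfl⟩
    obtain ⟨m, hm⟩ : ∃ m, ∀ S : T, n S < m := by
      obtain ⟨m, hm⟩ := (Set.finite_range n).bddAbove
      exact ⟨m + 1, fun S => Nat.lt_succ_of_le (hm ⟨S, rfl⟩)⟩
    obtain ⟨ω, -, h2, h3⟩ := key m
    exact ⟨ω, fun S hS => hXm ⟨S, hS⟩ ω (h2 _ (hm _)) (h3 _ (hm _))⟩
  obtain ⟨U, hU⟩ : ∃ U : Ultrafilter (Nm M ι → M), (U : Filter _) ≤ generate 𝒮 :=
    Ultrafilter.exists_le (generate 𝒮)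
  refine ⟨D, FS.filter D U, ?_⟩
  constructor
  · exact fun n => ⟨n, rfl⟩
  · rintro s e k x g ⟨n, hn⟩
    exact absurd hn (by simp)
  · exact U.neBot.mono FS.filter_le
  · rintro S ⟨S', h1, h2, h3⟩
    exact ⟨S', ⟨S', h1, subset_rfl, h3⟩, h2, h3⟩
  · intro p hp
    rw [FS.eventually_filter hp, FS.eventually_filter (hp.comp Not)]
    exact U.eventually_or.1 (Eventually.of_forall fun ω => em _)
  · intro n
    rw [FS.eventually_filter ((FS.coord (S := D) (x := .t n) ⟨n, rfl⟩).comp₂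
      (FS.coord (S := D) (x := .t (n + 1)) ⟨n + 1, rfl⟩) (B.E n))]
    exact hU (mem_generate_of_mem (Or.inl ⟨n, rfl⟩))
  · intro n X hX
    rw [FS.eventually_filter ((hX.mono Set.inter_subset_left).comp₂
      (FS.coord (S := D) (x := .t (n + 1)) ⟨n + 1, rfl⟩) fun a b => ¬ B.E (n + 1) a b)]
    exact hU (mem_generate_of_mem (Or.inr ⟨n, X, hX, rfl⟩))
  · rintro s e k x g ⟨n, hn⟩
    exact absurd hn (by simp)

/-- The extension of a filter to a further name. -/
theorem Stage.extend {D : Set (Nm M ι)} {F : Filter (Nm M ι → M)} (h : Stage B D F) {s : Set ι}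
    {e : ι → Prop} {k : ι → ℕ} {x : ∀ i, Fin (k i) → Nm M ι} {g : ∀ i, (Fin (k i) → M) → M}
    (hx : ∀ i j, x i j ∈ D) (hc : Nm.new s e k x g ∉ D) :
    ∃ F' ≤ F, Stage B (insert (Nm.new s e k x g) D) F' := by
  classical
  let c : Nm M ι := Nm.new s e k x g
  let D' : Set (Nm M ι) := insert c D
  have hDD : D ⊆ D' := Set.subset_insert _ _
  have hval : ∀ i, FS D (val x g i) := fun i => (FS.pi fun j => FS.coord (hx i j)).comp (g i)
  let prem : Prop := (∀ i ∈ s, ∀ j ∈ s, i ≠ j → ∀ᶠ ω in F, val x g i ω ≠ val x g j ω) ∧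
    ∀ i ∈ s, ∀ᶠ ω in F, B.P (val x g i ω)
  let 𝒮 : Set (Set (Nm M ι → M)) := F.sets ∪
    ({S | prem ∧ ∃ i ∈ s, S = {ω | B.P (ω c) ∧ ω c ≠ val x g i ω ∧
      (B.R (ω c) (val x g i ω) ↔ e i)}} ∪
    {S | ∃ n, ∃ X : (Nm M ι → M) → M, FS (D' ∩ {x | lev x ≤ n}) X ∧
      S = {ω | ¬ B.E (n + 1) (X ω) (ω (.t (n + 1)))}})
  have h𝒮 : (generate 𝒮).NeBot := by
    refine neBot_of_fip _ fun T hT hfin => ?_
    have hT1 : (T ∩ F.sets).Finite := hfin.subset Set.inter_subset_left
    -- one event for all events of the filter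
    obtain ⟨S₀, hS₀, hS₀T, hS₀s⟩ : ∃ S₀ ∈ F, S₀ ⊆ ⋂₀ (T ∩ F.sets) ∧ FS D (· ∈ S₀) :=
      h.gen _ ((sInter_mem hT1).2 fun S hS => hS.2)
    -- the indices of the parameters
    let I : Set ι := {i | prem ∧ i ∈ s ∧ {ω | B.P (ω c) ∧ ω c ≠ val x g i ω ∧
      (B.R (ω c) (val x g i ω) ↔ e i)} ∈ T}
    obtain ⟨I', hI'f, hI's, hI'p, hI'⟩ : ∃ I' : Set ι, I'.Finite ∧ I' ⊆ s ∧
        (∀ i ∈ I', prem) ∧ ∀ S ∈ T, (prem ∧ ∃ i ∈ s, S = {ω | B.P (ω c) ∧ ω c ≠ val x g i ω ∧
          (B.R (ω c) (val x g i ω) ↔ e i)}) → ∃ i ∈ I', S = {ω | B.P (ω c) ∧ ω c ≠ val x g i ω ∧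
          (B.R (ω c) (val x g i ω) ↔ e i)} := by
      have h1 : ∀ S : {S // S ∈ T ∧ (prem ∧ ∃ i ∈ s, S = {ω | B.P (ω c) ∧ ω c ≠ val x g i ω ∧
          (B.R (ω c) (val x g i ω) ↔ e i)})}, ∃ i ∈ s, S.1 = {ω | B.P (ω c) ∧ ω c ≠ val x g i ω ∧
          (B.R (ω c) (val x g i ω) ↔ e i)} := fun S => S.2.2.2
      choose f hf hf' using h1
      have h2 : Finite {S // S ∈ T ∧ (prem ∧ ∃ i ∈ s, S = {ω | B.P (ω c) ∧ ω c ≠ val x g i ω ∧
          (B.R (ω c) (val x g i ω) ↔ e i)})} := (hfin.subset (Set.sep_subset _ _) : Set.Finite _)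
      refine ⟨Set.range f, Set.finite_range f, ?_, ?_, fun S hS hS' => ?_⟩
      · rintro _ ⟨S, rfl⟩
        exact hf S
      · rintro _ ⟨S, rfl⟩
        exact S.2.2.1
      · exact ⟨f ⟨S, hS, hS'⟩, ⟨_, rfl⟩, hf' ⟨S, hS, hS'⟩⟩
    -- the functions
    have h1 : ∀ S : {S // S ∈ T ∧ ∃ n, ∃ X : (Nm M ι → M) → M, FS (D' ∩ {x | lev x ≤ n}) X ∧
      S = {ω | ¬ B.E (n + 1) (X ω) (ω (.t (n + 1)))}}, ∃ n, ∃ X : (Nm M ι → M) → M,
        FS (D' ∩ {x | lev x ≤ n}) X ∧ S.1 = {ω | ¬ B.E (n + 1) (X ω) (ω (.t (n + 1)))} :=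
      fun S => S.2.2
    choose n X hX hXS using h1
    have hJ : Finite {S // S ∈ T ∧ ∃ n, ∃ X : (Nm M ι → M) → M, FS (D' ∩ {x | lev x ≤ n}) X ∧
      S = {ω | ¬ B.E (n + 1) (X ω) (ω (.t (n + 1)))}} :=
      (hfin.subset (Set.sep_subset _ _) : Set.Finite _)
    have hI'f' : Finite I' := hI'f
    let _ := Fintype.ofFinite {S // S ∈ T ∧ ∃ n, ∃ X : (Nm M ι → M) → M,
      FS (D' ∩ {x | lev x ≤ n}) X ∧ S = {ω | ¬ B.E (n + 1) (X ω) (ω (.t (n + 1)))}}
    have h2 := onestep h _ I' (fun i => val x g i.1) (fun i => e i.1) (fun i => hval _)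
      (fun i => (hI'p i.1 i.2).2 _ (hI's i.2)) (fun i j hij => (hI'p i.1 i.2).1 _ (hI's i.2) _
        (hI's j.2) fun h => hij (Subtype.ext h)) _ rfl n
      (fun S ω v => X S (Function.update ω c v)) ?_
    · -- a common element
      by_contra hno
      refine h2 ?_
      filter_upwards [hS₀] with ω hω v hv h3
      by_contra h4
      refine hno ⟨Function.update ω c v, fun S hS => ?_⟩
      have hcoord : ∀ y ∈ D, Function.update ω c v y = ω y := by
        intro y hy
        refine Function.update_of_ne ?_ _ _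
        rintro rfl
        exact hc hy
      have hsupp : ∀ {α : Type} (f : (Nm M ι → M) → α), FS D f →
          f (Function.update ω c v) = f ω := by
        rintro α f ⟨G, -, hG, hf⟩
        exact hf _ _ fun y hy => hcoord y (hG hy)
      rcases hT hS with h5 | h5 | h5
      · have h6 : (Function.update ω c v ∈ S₀) = (ω ∈ S₀) := hsupp _ hS₀s
        exact Set.mem_sInter.1 (hS₀T (h6 ▸ hω)) S ⟨hS, h5⟩
      · obtain ⟨i, hi, rfl⟩ := hI' S hS h5
        have h6 := h3 ⟨i, hi⟩
        change B.P (Function.update ω c v c) ∧ Function.update ω c v c ≠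
          val x g i (Function.update ω c v) ∧ (B.R (Function.update ω c v c)
            (val x g i (Function.update ω c v)) ↔ e i)
        rw [Function.update_self, hsupp _ (hval i)]
        exact ⟨hv, h6⟩
      · have h6 := hXS ⟨S, hS, h5⟩
        rw [show S = _ from h6]
        intro h7
        refine h4 ⟨⟨S, hS, h5⟩, ?_⟩
        rw [hcoord _ (h.tmem _)] at h7
        exact h7
    · intro S
      obtain ⟨G, hG1, hG2, hG3⟩ := hX S
      refine ⟨G \ {c}, hG1.subset Set.sdiff_subset, ?_, fun ω ω' hω => ?_⟩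
      · rintro y ⟨hy, hyc⟩
        rcases (hG2 hy).1 with h3 | h3
        · exact absurd h3 hyc
        · exact ⟨h3, (hG2 hy).2⟩
      · funext v
        refine hG3 _ _ fun y hy => ?_
        by_cases hyc : y = c
        · subst hyc
          rw [Function.update_self, Function.update_self]
        · rw [Function.update_of_ne hyc, Function.update_of_ne hyc]
          exact hω y ⟨hy, hyc⟩
  obtain ⟨U, hU⟩ : ∃ U : Ultrafilter (Nm M ι → M), (U : Filter _) ≤ generate 𝒮 :=
    Ultrafilter.exists_le (generate 𝒮)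
  have hUF : (U : Filter _) ≤ F := fun S hS => hU (mem_generate_of_mem (Or.inl hS))
  have hle : FS.filter D' (U : Filter (Nm M ι → M)) ≤ F := by
    intro S hS
    obtain ⟨S', h1, h2, h3⟩ := h.gen S hS
    exact ⟨S', hUF h1, h2, h3.mono hDD⟩
  have hcD : c ∈ D' := Set.mem_insert _ _
  refine ⟨FS.filter D' U, hle, ?_⟩
  constructor
  · exact fun n => hDD (h.tmem n)
  · intro s' e' k' x' g' h1 i j
    rcases h1 with h1 | h1
    · obtain ⟨rfl, rfl, rfl, h2, h3⟩ := Nm.new.inj h1
      rw [eq_of_heq h2]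
      exact hDD (hx i j)
    · exact hDD (h.closed _ _ _ _ _ h1 i j)
  · exact U.neBot.mono FS.filter_le
  · rintro S ⟨S', h1, h2, h3⟩
    exact ⟨S', ⟨S', h1, subset_rfl, h3⟩, h2, h3⟩
  · intro p hp
    rw [FS.eventually_filter hp, FS.eventually_filter (hp.comp Not)]
    exact U.eventually_or.1 (Eventually.of_forall fun ω => em _)
  · intro n
    exact hle (h.chain n)
  · intro n X hX
    rw [FS.eventually_filter ((hX.mono Set.inter_subset_left).comp₂
      (FS.coord (hDD (h.tmem (n + 1)))) fun a b => ¬ B.E (n + 1) a b)]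
    exact hU (mem_generate_of_mem (Or.inr (Or.inr ⟨n, X, hX, rfl⟩)))
  · intro s' e' k' x' g' h1 h2 h3 i hi
    rcases h1 with h1 | h1
    · obtain ⟨b1, b2, b3, b4, b5⟩ := Nm.new.inj h1
      have b1' := b1.symm
      have b2' := b2.symm
      have b3' := b3.symm
      clear b1 b2 b3
      subst b1'
      subst b2'
      subst b3'
      have b4' := (eq_of_heq b4).symm
      have b5' := (eq_of_heq b5).symm
      clear b4 b5
      subst b4'
      subst b5'
      have hprem : prem := by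
        refine ⟨fun i hi j hj hij => ?_, fun i hi => ?_⟩
        · have h6 : FS D fun ω => val x g i ω ≠ val x g j ω :=
            (hval i).comp₂ (hval j) fun a b => a ≠ b
          rcases h.dec _ h6 with h7 | h7
          · exact h7
          · have h8 := hUF h7
            have h9 := FS.filter_le (h2 i hi j hj hij)
            obtain ⟨ω, h10, h11⟩ := (Eventually.and h8 h9).exists
            exact absurd h11 h10
        · have h6 : FS D fun ω => B.P (val x g i ω) := (hval i).comp B.P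
          rcases h.dec _ h6 with h7 | h7
          · exact h7
          · have h8 := hUF h7
            have h9 := FS.filter_le (h3 i hi)
            obtain ⟨ω, h10, h11⟩ := (Eventually.and h8 h9).exists
            exact absurd h11 h10
      rw [FS.eventually_filter (((FS.coord hcD).comp₂ ((hval i).mono hDD)
        fun a b => B.P a ∧ a ≠ b ∧ (B.R a b ↔ e i)))]
      exact hU (mem_generate_of_mem (Or.inr (Or.inl ⟨hprem, i, hi, rfl⟩)))
    · have hval' : ∀ i, FS D (val x' g' i) := fun i =>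
        (FS.pi fun j => FS.coord (h.closed _ _ _ _ _ h1 i j)).comp (g' i)
      refine hle (h.real _ _ _ _ _ h1 (fun i hi j hj hij => ?_) (fun i hi => ?_) i hi)
      · have h6 : FS D fun ω => val x' g' i ω ≠ val x' g' j ω :=
          (hval' i).comp₂ (hval' j) fun a b => a ≠ b
        rcases h.dec _ h6 with h7 | h7
        · exact h7
        · have h8 := hUF h7
          have h9 := FS.filter_le (h2 i hi j hj hij)
          obtain ⟨ω, h10, h11⟩ := (Eventually.and h8 h9).exists
          exact absurd h11 h10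
      · have h6 : FS D fun ω => B.P (val x' g' i ω) := (hval' i).comp B.P
        rcases h.dec _ h6 with h7 | h7
        · exact h7
        · have h8 := hUF h7
          have h9 := FS.filter_le (h3 i hi)
          obtain ⟨ω, h10, h11⟩ := (Eventually.and h8 h9).exists
          exact absurd h11 h10

/-- The filter that decides all finitely supported events. -/
theorem exists_full (B : Base M) (ι : Type) :
    ∃ F : Filter (Nm M ι → M), Stage B Set.univ F := by
  classical
  let Q₀ : Set (Set (Nm M ι) × (Filter (Nm M ι → M))ᵒᵈ) :=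
    {p | Stage B p.1 (OrderDual.ofDual p.2)}
  obtain ⟨D₀, F₀, h₀⟩ := exists_stage B ι
  obtain ⟨⟨D, F⟩, -, hmax⟩ := zorn_le_nonempty₀ Q₀ (by
    intro c hc hchain y hy
    have hdir : ∀ p ∈ c, ∀ q ∈ c, ∃ r ∈ c, p ≤ r ∧ q ≤ r := by
      intro p hp q hq
      rcases hchain.total hp hq with h | h
      · exact ⟨q, hq, h, le_rfl⟩
      · exact ⟨p, hp, le_rfl, h⟩
    let G : Filter (Nm M ι → M) := {
      sets := {S | ∃ p ∈ c, S ∈ OrderDual.ofDual p.2}
      univ_sets := ⟨y, hy, univ_mem⟩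
      sets_of_superset := by
        rintro S T ⟨p, hp, hS⟩ hST
        exact ⟨p, hp, mem_of_superset hS hST⟩
      inter_sets := by
        rintro S T ⟨p, hp, hS⟩ ⟨q, hq, hT⟩
        obtain ⟨r, hr, hpr, hqr⟩ := hdir p hp q hq
        exact ⟨r, hr, inter_mem (hpr.2 hS) (hqr.2 hT)⟩ }
    have hG : ∀ {S : Set (Nm M ι → M)}, S ∈ G ↔ ∃ p ∈ c, S ∈ OrderDual.ofDual p.2 := Iff.rfl
    have hGle : ∀ p ∈ c, G ≤ OrderDual.ofDual p.2 := fun p hp S hS => ⟨p, hp, hS⟩
    let E : Set (Nm M ι) := ⋃ p ∈ c, p.1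
    have hE : ∀ p ∈ c, p.1 ⊆ E := fun p hp => Set.subset_biUnion_of_mem hp
    have hfs : ∀ {α : Type} (T : Set (Nm M ι)) (f : (Nm M ι → M) → α), FS (E ∩ T) f →
        ∃ p ∈ c, FS (p.1 ∩ T) f := by
      rintro α T f ⟨H, h1, h2, h3⟩
      have h4 : ∀ H' : Set (Nm M ι), H'.Finite → H' ⊆ E → ∃ p ∈ c, H' ⊆ p.1 := by
        intro H' hH'
        induction H', hH' using Set.Finite.induction_on with
        | empty => exact fun _ => ⟨y, hy, Set.empty_subset _⟩
        | insert _ _ ih =>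
          rename_i a H'' _ _
          intro hE'
          obtain ⟨p, hp, h5⟩ := ih ((Set.subset_insert _ _).trans hE')
          obtain ⟨q, hq, h6⟩ := Set.mem_iUnion₂.1 (hE' (Set.mem_insert _ _))
          obtain ⟨r, hr, hpr, hqr⟩ := hdir p hp q hq
          exact ⟨r, hr, Set.insert_subset (hqr.1 h6) (h5.trans hpr.1)⟩
      obtain ⟨p, hp, h5⟩ := h4 H h1 fun a ha => (h2 ha).1
      exact ⟨p, hp, H, h1, fun a ha => ⟨h5 ha, (h2 ha).2⟩, h3⟩
    refine ⟨⟨E, OrderDual.toDual G⟩, ?_, fun z hz => ⟨hE z hz, hGle z hz⟩⟩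
    have hst : ∀ p ∈ c, Stage B p.1 (OrderDual.ofDual p.2) := fun p hp => hc hp
    change Stage B E G
    have hnb : G.NeBot := by
      refine ⟨fun h => ?_⟩
      have h1 : ∅ ∈ G := by rw [h]; exact mem_bot
      obtain ⟨p, hp, h2⟩ := hG.1 h1
      exact (hst p hp).nebot.ne (empty_mem_iff_bot.1 h2)
    constructor
    · exact fun n => hE y hy ((hst y hy).tmem n)
    · intro s e k x g h1 i j
      obtain ⟨p, hp, h2⟩ := Set.mem_iUnion₂.1 h1
      exact hE p hp ((hst p hp).closed _ _ _ _ _ h2 i j)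
    · exact hnb
    · rintro S ⟨p, hp, hS⟩
      obtain ⟨S', h1, h2, h3⟩ := (hst p hp).gen S hS
      exact ⟨S', hGle p hp h1, h2, h3.mono (hE p hp)⟩
    · intro q hq
      obtain ⟨p, hp, h1⟩ := hfs Set.univ q (by rwa [Set.inter_univ])
      rw [Set.inter_univ] at h1
      rcases (hst p hp).dec q h1 with h2 | h2
      · exact Or.inl (hGle p hp h2)
      · exact Or.inr (hGle p hp h2)
    · exact fun n => hGle y hy ((hst y hy).chain n)
    · intro n X hX
      obtain ⟨p, hp, h1⟩ := hfs _ X hX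
      exact hGle p hp ((hst p hp).good n X h1)
    · intro s e k x g h1 h2 h3 i hi
      obtain ⟨p, hp, h4⟩ := Set.mem_iUnion₂.1 h1
      have hval' : ∀ i, FS p.1 (val x g i) := fun i =>
        (FS.pi fun j => FS.coord ((hst p hp).closed _ _ _ _ _ h4 i j)).comp (g i)
      refine hGle p hp ((hst p hp).real _ _ _ _ _ h4 (fun i hi j hj hij => ?_)
        (fun i hi => ?_) i hi)
      · have h6 : FS p.1 fun ω => val x g i ω ≠ val x g j ω :=
          (hval' i).comp₂ (hval' j) fun a b => a ≠ b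
        rcases (hst p hp).dec _ h6 with h7 | h7
        · exact h7
        · have h8 := hGle p hp h7
          obtain ⟨ω, h10, h11⟩ := (Eventually.and h8 (h2 i hi j hj hij)).exists
          exact absurd h11 h10
      · have h6 : FS p.1 fun ω => B.P (val x g i ω) := (hval' i).comp B.P
        rcases (hst p hp).dec _ h6 with h7 | h7
        · exact h7
        · have h8 := hGle p hp h7
          obtain ⟨ω, h10, h11⟩ := (Eventually.and h8 (h3 i hi)).exists
          exact absurd h11 h10) ⟨D₀, OrderDual.toDual F₀⟩ h₀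
  have hst : Stage B D (OrderDual.ofDual F) := hmax.prop
  have hall : ∀ c, c ∈ D := by
    intro c
    induction c with
    | t n => exact hst.tmem n
    | new s e k x g ih =>
      by_contra hc
      obtain ⟨F', h1, h2⟩ := hst.extend (s := s) (e := e) (k := k) (x := x) (g := g) ih hc
      have h4 : ((D, F) : Set (Nm M ι) × (Filter (Nm M ι → M))ᵒᵈ) ≤
          (insert (Nm.new s e k x g) D, OrderDual.toDual F') := ⟨Set.subset_insert _ _, h1⟩
      have h3 := hmax.le_of_ge (y := (insert (Nm.new s e k x g) D, OrderDual.toDual F')) h2 h4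
      exact hc (h3.1 (Set.mem_insert _ _))
  rw [Set.eq_univ_of_forall hall] at hst
  exact ⟨_, hst⟩

end Pool.Agent.Helper69.Io

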